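import Pool.Agent.Helper10.TWH.D

/-!
# Project TWU: the base fields, uniformly in the field of constants
-/

universe u v

set_option linter.unusedSectionVars false

namespace Pool.Agent.TWU

open Pool.Agent.LT

/-- a composite of finitely generated fields is finitely generated -/
theorem fg_composite {F k₀ k : Type u} [Field F] [Field k₀] [Field k] [Algebra F k] [Algebra k₀ k]
    (hF : ∃ S : Finset F, Subfield.closure (S : Set F) = ⊤)
    (hk₀ : ∃ S : Finset k₀, Subfield.closure (S : Set k₀) = ⊤)
    (hgen : IntermediateField.adjoin F (Set.range (algebraMap k₀ k)) = ⊤) :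
    ∃ S : Finset k, Subfield.closure (S : Set k) = ⊤ := by
  classical
  obtain ⟨SF, hSF⟩ := hF
  obtain ⟨S₀, hS₀⟩ := hk₀
  refine ⟨SF.image (algebraMap F k) ∪ S₀.image (algebraMap k₀ k), ?_⟩
  set M := Subfield.closure ((SF.image (algebraMap F k) ∪ S₀.image (algebraMap k₀ k) : Finset k) :
    Set k) with hM
  have h1 : ∀ c : F, algebraMap F k c ∈ M := by
    have h2 : (⊤ : Subfield F) ≤ M.comap (algebraMap F k) := by
      rw [← hSF, Subfield.closure_le]
      intro z hz
      refine Subfield.subset_closure ?_
      rw [Finset.mem_coe]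
      exact Finset.mem_union_left _ (Finset.mem_image_of_mem _ hz)
    exact fun c => h2 trivial
  have h2 : ∀ c : k₀, algebraMap k₀ k c ∈ M := by
    have h2 : (⊤ : Subfield k₀) ≤ M.comap (algebraMap k₀ k) := by
      rw [← hS₀, Subfield.closure_le]
      intro z hz
      refine Subfield.subset_closure ?_
      rw [Finset.mem_coe]
      exact Finset.mem_union_right _ (Finset.mem_image_of_mem _ hz)
    exact fun c => h2 trivial
  rw [eq_top_iff]
  intro z _
  have hz : z ∈ IntermediateField.adjoin F (Set.range (algebraMap k₀ k)) := by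
    rw [hgen]
    trivial
  have h3 : IntermediateField.adjoin F (Set.range (algebraMap k₀ k)) ≤ M.toIntermediateField h1 := by
    rw [IntermediateField.adjoin_le_iff]
    rintro _ ⟨c, rfl⟩
    exact h2 c
  exact h3 hz

/-- **The base field** of a basis. -/
theorem base_of_basis {F k : Type u} [Field F] [Field k] [Algebra F k] [CharZero F]
    (hF : ∃ S : Finset F, Subfield.closure (S : Set F) = ⊤)
    (hk : ∃ S : Finset k, Subfield.closure (S : Set k) = ⊤) {t u : k} {n : ℕ} {s : Fin n → k}
    (hind : AlgebraicIndependent (IntermediateField.adjoin F (Set.range s)) ![t, u])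
    (halg : ∀ (M : Subfield k), (∀ c : F, algebraMap F k c ∈ M) → t ∈ M → u ∈ M →
      (∀ i, s i ∈ M) → Algebra.IsAlgebraic M k) :
    ∃ F₁ : IntermediateField F k, (∃ S : Finset F₁, Subfield.closure (S : Set F₁) = ⊤) ∧
      (∀ z : k, IsAlgebraic F₁ z → z ∈ F₁) ∧ AlgebraicIndependent F₁ ![t, u] ∧
      FiniteDimensional (IntermediateField.adjoin F₁ {t, u}) k ∧ ∀ i, s i ∈ F₁ := by
  have hchk : CharZero k := charZero_of_injective_algebraMap (algebraMap F k).injective
  -- `k` is essentially of finite type over `F`
  have hess : Algebra.EssFiniteType F k := by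
    obtain ⟨S, hS⟩ := hk
    rw [← IntermediateField.fg_top_iff]
    refine ⟨S, ?_⟩
    rw [eq_top_iff]
    intro z _
    have hz : z ∈ Subfield.closure (S : Set k) := by rw [hS]; trivial
    exact (Subfield.closure_le (t := (IntermediateField.adjoin F (S : Set k)).toSubfield)).2
      (IntermediateField.subset_adjoin F (S : Set k)) hz
  set E₀ := IntermediateField.adjoin F (Set.range s) with hE₀
  have hindF := hind.algebraicClosure
  have hfin1 : FiniteDimensional (IntermediateField.adjoin E₀ (Set.range ![t, u])) k := by
    have h1 : Algebra.IsAlgebraic (IntermediateField.adjoin E₀ (Set.range ![t, u])) k := by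
      refine halg (IntermediateField.adjoin E₀ (Set.range ![t, u])).toSubfield ?_ ?_ ?_ ?_
      · exact fun c => (IntermediateField.adjoin E₀ (Set.range ![t, u])).algebraMap_mem
          (algebraMap F E₀ c)
      · exact IntermediateField.subset_adjoin _ _ ⟨0, rfl⟩
      · exact IntermediateField.subset_adjoin _ _ ⟨1, rfl⟩
      · intro i
        exact (IntermediateField.adjoin E₀ (Set.range ![t, u])).algebraMap_mem
          ⟨s i, IntermediateField.subset_adjoin F _ ⟨i, rfl⟩⟩
    have h3 : IsScalarTower F (IntermediateField.adjoin E₀ (Set.range ![t, u])) k :=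
      IsScalarTower.of_algebraMap_eq fun _ => rfl
    have h2 : Algebra.EssFiniteType (IntermediateField.adjoin E₀ (Set.range ![t, u])) k :=
      Algebra.EssFiniteType.of_comp F _ k
    exact Algebra.finite_of_essFiniteType_of_isAlgebraic
  have hfinF : FiniteDimensional E₀ (algebraicClosure E₀ k) := finite_of_finite_adjoin _ hindF
  have hE₀fg : ∃ S : Finset E₀, Subfield.closure (S : Set E₀) = ⊤ := RR.fg_adjoin hF s
  let b := Module.finBasis E₀ (algebraicClosure E₀ k)
  have hb : IntermediateField.adjoin E₀ (Set.range fun i => (b i : k)) = algebraicClosure E₀ k := by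
    apply le_antisymm
    · rw [IntermediateField.adjoin_le_iff]
      rintro _ ⟨i, rfl⟩
      exact (b i).2
    · intro z hz
      have h2 : (⟨z, hz⟩ : algebraicClosure E₀ k) ∈
          (⊤ : Submodule E₀ (algebraicClosure E₀ k)) := trivial
      rw [← b.span_eq] at h2
      have h3 : Submodule.span E₀ (Set.range b) ≤
          Submodule.comap (algebraicClosure E₀ k).val.toLinearMap
            (IntermediateField.adjoin E₀
              (Set.range fun i => (b i : k))).toSubalgebra.toSubmodule := by
        rw [Submodule.span_le]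
        rintro _ ⟨i, rfl⟩
        exact IntermediateField.subset_adjoin E₀ _ ⟨i, rfl⟩
      exact h3 h2
  have hfg : ∃ S : Finset (algebraicClosure E₀ k),
      Subfield.closure (S : Set (algebraicClosure E₀ k)) = ⊤ := by
    have h1 := RR.fg_adjoin hE₀fg fun i => (b i : k)
    rw [hb] at h1
    exact h1
  let F₁ : IntermediateField F k := (algebraicClosure E₀ k).restrictScalars F
  have hsF₁ : ∀ i, s i ∈ F₁ := fun i =>
    (algebraicClosure E₀ k).algebraMap_mem ⟨s i, IntermediateField.subset_adjoin F _ ⟨i, rfl⟩⟩
  refine ⟨F₁, hfg, ?_, hindF, ?_, hsF₁⟩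
  · intro z hz
    have h1 : IsAlgebraic (algebraicClosure E₀ k) z := hz
    have h2 : IsAlgebraic E₀ z := h1.restrictScalars E₀
    exact mem_algebraicClosure_iff.2 h2
  · have h1 : Algebra.IsAlgebraic (IntermediateField.adjoin F₁ {t, u}) k := by
      refine halg (IntermediateField.adjoin F₁ {t, u}).toSubfield ?_ ?_ ?_ ?_
      · exact fun c => (IntermediateField.adjoin F₁ {t, u}).algebraMap_mem (algebraMap F F₁ c)
      · exact IntermediateField.subset_adjoin _ _ (by simp)
      · exact IntermediateField.subset_adjoin _ _ (by simp)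
      · intro i
        exact (IntermediateField.adjoin F₁ {t, u}).algebraMap_mem ⟨s i, hsF₁ i⟩
    have h3 : IsScalarTower F (IntermediateField.adjoin F₁ {t, u}) k :=
      IsScalarTower.of_algebraMap_eq fun _ => rfl
    have h2 : Algebra.EssFiniteType (IntermediateField.adjoin F₁ {t, u}) k :=
      Algebra.EssFiniteType.of_comp F _ k
    exact Algebra.finite_of_essFiniteType_of_isAlgebraic

/-- independence over the field generated by the other elements -/
theorem indep_of_append {F k : Type u} [Field F] [Field k] [Algebra F k] {t u : k} {n : ℕ}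
    {s : Fin n → k} (h : AlgebraicIndependent F (Sum.elim ![t, u] s)) :
    AlgebraicIndependent (IntermediateField.adjoin F (Set.range s)) ![t, u] := by
  have h4 := (AlgebraicIndependent.sumElim_iff.1 h).2
  exact IntermediateField.algebraicIndependent_adjoin_iff.2 h4

/-- **The base fields**, uniformly. -/
theorem exists_base_fieldU {F₀ k₀ : Type u} [Field F₀] [CharZero F₀] [Field k₀] [Algebra F₀ k₀]
    (hk₀ : ∃ S : Finset k₀, Subfield.closure (S : Set k₀) = ⊤) {t u : k₀}
    (htu : AlgebraicIndependent F₀ ![t, u]) :
    ∃ F₁ : IntermediateField F₀ k₀, AlgebraicIndependent F₁ ![t, u] ∧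
      (∀ z : k₀, IsAlgebraic (IntermediateField.adjoin F₁ {t, u}) z) ∧
      ∀ (F k : Type u) [Field F] [Field k] [Algebra F₀ F] [Algebra F k] [Algebra k₀ k]
        [Algebra F₀ k] [IsScalarTower F₀ F k] [IsScalarTower F₀ k₀ k],
        (∃ S : Finset F, Subfield.closure (S : Set F) = ⊤) →
        IntermediateField.adjoin F (Set.range (algebraMap k₀ k)) = ⊤ →
        (∀ {n : ℕ} {x : Fin n → k₀}, AlgebraicIndependent F₀ x →
          AlgebraicIndependent F (algebraMap k₀ k ∘ x)) →
        ∃ F' : IntermediateField F k, (∃ S : Finset F', Subfield.closure (S : Set F') = ⊤) ∧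
          (∀ z : k, IsAlgebraic F' z → z ∈ F') ∧
          AlgebraicIndependent F' ![algebraMap k₀ k t, algebraMap k₀ k u] ∧
          FiniteDimensional (IntermediateField.adjoin F'
            {algebraMap k₀ k t, algebraMap k₀ k u}) k ∧
          ∀ z ∈ F₁, algebraMap k₀ k z ∈ F' := by
  classical
  have hrange : Set.range ![t, u] = {t, u} := by
    simp only [Matrix.range_cons, Matrix.range_empty, Set.union_empty, Set.singleton_union]
  -- `k₀` is essentially of finite type over `F₀`
  have hess : Algebra.EssFiniteType F₀ k₀ := by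
    obtain ⟨S, hS⟩ := hk₀
    rw [← IntermediateField.fg_top_iff]
    refine ⟨S, ?_⟩
    rw [eq_top_iff]
    intro z _
    have hz : z ∈ Subfield.closure (S : Set k₀) := by rw [hS]; trivial
    exact (Subfield.closure_le (t := (IntermediateField.adjoin F₀ (S : Set k₀)).toSubfield)).2
      (IntermediateField.subset_adjoin F₀ (S : Set k₀)) hz
  set L := IntermediateField.adjoin F₀ ({t, u} : Set k₀) with hL
  have hessL : Algebra.EssFiniteType L k₀ := Algebra.EssFiniteType.of_comp F₀ L k₀
  obtain ⟨s₀, hs₀⟩ := exists_finset_isTranscendenceBasis L k₀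
  obtain ⟨n, s, hs⟩ : ∃ (n : ℕ) (s : Fin n → k₀), IsTranscendenceBasis L s := by
    let e := s₀.equivFin
    exact ⟨s₀.card, fun i => ((e.symm i : s₀) : k₀), hs₀.comp_equiv e.symm⟩
  have hind : AlgebraicIndependent F₀ (Sum.elim ![t, u] s) := by
    have h1 : AlgebraicIndependent (Algebra.adjoin F₀ (Set.range ![t, u])) s := by
      rw [hrange]
      exact IntermediateField.algebraicIndependent_adjoin_iff.1 hs.1
    have h2 := htu.sumElim h1
    refine (algebraicIndependent_equiv' (Equiv.sumComm _ _) ?_).1 h2
    ext i
    rcases i with i | i <;> rfl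
  -- `k₀` is algebraic over every subfield containing `t`, `u`, `s`
  have halg : ∀ (M : Subfield k₀), (∀ c : F₀, algebraMap F₀ k₀ c ∈ M) → t ∈ M → u ∈ M →
      (∀ i, s i ∈ M) → ∀ z : k₀, IsAlgebraic M z := by
    intro M hFM ht hu hsM z
    have h1 : Algebra.IsAlgebraic (Algebra.adjoin L (Set.range s)) k₀ := hs.isAlgebraic
    have hLM : L.toSubfield ≤ M := by
      have : L ≤ (Subfield.toIntermediateField M hFM) := by
        rw [hL, IntermediateField.adjoin_le_iff]
        intro z hz
        rcases hz with rfl | hz
        · exact ht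
        · rw [Set.mem_singleton_iff.1 hz]
          exact hu
      exact this
    have hAM : ∀ z ∈ Algebra.adjoin L (Set.range s), z ∈ M := by
      intro z hz
      induction hz using Algebra.adjoin_induction with
      | mem x hx =>
        obtain ⟨i, rfl⟩ := hx
        exact hsM i
      | algebraMap r => exact hLM r.2
      | add x y _ _ hx hy => exact M.add_mem hx hy
      | mul x y _ _ hx hy => exact M.mul_mem hx hy
    obtain ⟨p, hp0, hp⟩ := h1.isAlgebraic z
    let f : Algebra.adjoin L (Set.range s) →+* M :=
      { toFun := fun z => ⟨z, hAM z z.2⟩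
        map_one' := rfl
        map_mul' := fun _ _ => rfl
        map_zero' := rfl
        map_add' := fun _ _ => rfl }
    have hf : Function.Injective f := by
      intro a b hab
      exact Subtype.ext (congrArg (fun z : M => (z : k₀)) hab)
    refine ⟨p.map f, ?_, ?_⟩
    · rw [Ne, Polynomial.map_eq_zero_iff hf]
      exact hp0
    · rw [Polynomial.aeval_def, Polynomial.eval₂_map]
      rw [Polynomial.aeval_def] at hp
      exact hp
  refine ⟨IntermediateField.adjoin F₀ (Set.range s), indep_of_append hind, ?_, ?_⟩
  · intro z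
    refine halg (IntermediateField.adjoin (IntermediateField.adjoin F₀ (Set.range s))
      {t, u}).toSubfield ?_ ?_ ?_ ?_ z
    · exact fun c => IntermediateField.algebraMap_mem _
        (algebraMap F₀ (IntermediateField.adjoin F₀ (Set.range s)) c)
    · exact IntermediateField.subset_adjoin _ _ (by simp)
    · exact IntermediateField.subset_adjoin _ _ (by simp)
    · intro i
      exact IntermediateField.algebraMap_mem _ (⟨s i, IntermediateField.subset_adjoin F₀ _ ⟨i, rfl⟩⟩ :
        IntermediateField.adjoin F₀ (Set.range s))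
  intro F k _ _ _ _ _ _ _ _ hF hgen hfree
  have hF0 : CharZero F := charZero_of_injective_algebraMap (algebraMap F₀ F).injective
  have hk := fg_composite hF hk₀ hgen
  have hind' : AlgebraicIndependent F (Sum.elim ![algebraMap k₀ k t, algebraMap k₀ k u]
      (algebraMap k₀ k ∘ s)) := by
    let e : Fin (2 + n) ≃ Fin 2 ⊕ Fin n := finSumFinEquiv.symm
    have h1 : AlgebraicIndependent F₀ (Sum.elim ![t, u] s ∘ e) := hind.comp e e.injective
    have h2 := hfree h1
    have h3 := h2.comp e.symm e.symm.injective
    have h4 : (algebraMap k₀ k ∘ Sum.elim ![t, u] s ∘ e) ∘ e.symm =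
        Sum.elim ![algebraMap k₀ k t, algebraMap k₀ k u] (algebraMap k₀ k ∘ s) := by
      funext x
      simp only [Function.comp_apply, Equiv.apply_symm_apply]
      rcases x with x | x
      · fin_cases x <;> rfl
      · rfl
    rwa [h4] at h3
  obtain ⟨F', h1, h2, h3, h4, h5⟩ := base_of_basis hF hk (indep_of_append hind')
    (by
      intro M hFM ht hu hsM
      -- the elements of `k₀` are algebraic over `M`
      have h6 : ∀ z : k₀, IsAlgebraic M (algebraMap k₀ k z) := by
        intro z
        have h7 := halg (M.comap (algebraMap k₀ k)) (fun c => by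
          change algebraMap k₀ k (algebraMap F₀ k₀ c) ∈ M
          rw [← IsScalarTower.algebraMap_apply, IsScalarTower.algebraMap_apply F₀ F k]
          exact hFM _) ht hu hsM z
        obtain ⟨p, hp0, hp⟩ := h7
        let f : M.comap (algebraMap k₀ k) →+* M :=
          ((algebraMap k₀ k).comp (M.comap (algebraMap k₀ k)).subtype).codRestrict M fun y => y.2
        refine ⟨p.map f, ?_, ?_⟩
        · rw [Ne, Polynomial.map_eq_zero]
          exact hp0
        · rw [Polynomial.aeval_def, Polynomial.eval₂_map]
          have h8 := congrArg (algebraMap k₀ k) hp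
          rw [map_zero, Polynomial.aeval_def, Polynomial.hom_eval₂] at h8
          exact h8
      have h7 : ∀ c : F, algebraMap F k c ∈ algebraicClosure M k := fun c =>
        (algebraicClosure M k).algebraMap_mem ⟨_, hFM c⟩
      have h8 : IntermediateField.adjoin F (Set.range (algebraMap k₀ k)) ≤
          (algebraicClosure M k).toSubfield.toIntermediateField h7 := by
        rw [IntermediateField.adjoin_le_iff]
        rintro _ ⟨c, rfl⟩
        exact mem_algebraicClosure_iff.2 (h6 c)
      rw [hgen] at h8
      exact ⟨fun z => mem_algebraicClosure_iff.1 (h8 (IntermediateField.mem_top (x := z)))⟩)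
  refine ⟨F', h1, h2, h3, h4, ?_⟩
  intro z hz
  have h6 : (IntermediateField.adjoin F₀ (Set.range s)).toSubfield ≤
      F'.toSubfield.comap (algebraMap k₀ k) := by
    rw [IntermediateField.adjoin_toSubfield, Subfield.closure_le]
    rintro _ (⟨c, rfl⟩ | ⟨i, rfl⟩)
    · change algebraMap k₀ k (algebraMap F₀ k₀ c) ∈ F'
      rw [← IsScalarTower.algebraMap_apply, IsScalarTower.algebraMap_apply F₀ F k]
      exact F'.algebraMap_mem _
    · exact h5 i
  exact h6 hz

end Pool.Agent.TWU
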