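import Pool.Agent.Helper13.TWH.E

/-!
# Project TWU, block E: sections and rational places (variant of `TWH.noSecTwist_of_goodAt`)
-/

universe u

set_option linter.unusedSectionVars false

namespace Pool.Agent.TWU

open VC Polynomial Pool.Agent.LT Pool.Agent.SC Pool.Agent.GC Pool.Agent.Helper91.Sect Pool.Agent
  Pool.Agent.TWH

/-- **Block E.** The twists have no sections if `gcd(n, ord_O g)` does not divide `j` for all rational places.
The residues of `g` (divided by a power of a uniformizer) at the rational bad places are units at all valuation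
rings which contain `E`. -/
theorem noSecTwist_of_resid {F k K₀ : Type u} [Field F] [CharZero F] [Field k] [Algebra F k]
    [DecidableEq k] [Field K₀] [Algebra k K₀]
    (hF : ∃ S : Finset F, Subfield.closure (S : Set F) = ⊤)
    (hk : ∃ S : Finset k, Subfield.closure (S : Set k) = ⊤)
    {g x z₀ : K₀} {f : k[X]} {S : Finset k} (hc : Coord g x z₀ f S)
    {v u : k} (hvu : AlgebraicIndependent F ![v, u]) (hfin : FiniteDimensional (k0 F v u) k)
    (hreg : ∀ z : k, IsAlgebraic (IntermediateField.adjoin F {v}) z →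
      z ∈ IntermediateField.adjoin F {v}) {c : k} (hc0 : c ≠ 0)
    {Δ : F[X][X]} (hΔ : GoodDisc Δ) {E : Finset k}
    (hE : IntermediateField.adjoin F (E : Set k) = ⊤)
    (hgE : goodElts f 1 ∪ (S ∪ {c, c⁻¹}) ⊆ E) (h : GoodAt F v u Δ E)
    (hB : ∀ O : Place k K₀, TW.RatPlace O →
      (x⁻¹ ∈ O.ring.nonunits ∨ aeval x f ∈ O.ring.nonunits) →
      ∃ γ : k, γ ≠ 0 ∧ (∀ (Ω : Type u) [Field Ω] [Algebra k Ω] (W : ValuationSubring Ω),
        (∀ a ∈ E, algebraMap k Ω a ∈ W) → W.valuation (algebraMap k Ω γ) = 1) ∧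
      ∀ n : ℕ, (n : ℤ) ∣ ord O.ring g →
        ∃ u : K₀, u ≠ 0 ∧ g * u ^ n - algebraMap k K₀ γ ∈ O.ring.nonunits) :
    TW.NoSecTwist g (c * v) := by
  classical
  have hk0 : CharZero k := charZero_of_injective_algebraMap (algebraMap F k).injective
  have hx0 : x ≠ 0 := by
    rintro rfl
    exact hc.x_tr isAlgebraic_zero
  have htx : Transcendental k x⁻¹ := fun h => hc.x_tr (by rw [← inv_inv x]; exact h.inv)
  have htf : Transcendental k (aeval x f) := hc.x_tr.aeval f (by have := hc.deg; omega)
    (mem_nonZeroDivisors_of_ne_zero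
      (leadingCoeff_ne_zero.2 (ne_zero_of_natDegree_gt (n := 0) (by have := hc.deg; omega))))
  intro n j hn hj hbr K _ _ _ _ y hgen heq hrat
  refine ⟨fun s => ?_⟩
  have hv0 : v ≠ 0 := by
    intro h0
    rw [h0] at hvu
    exact transc_F_t hvu isAlgebraic_zero
  let iFK : Algebra F K := ((algebraMap k K).comp (algebraMap F k)).toAlgebra
  have sFK : IsScalarTower F k K := IsScalarTower.of_algebraMap_eq fun _ => rfl
  have hgal := isGalois0 (K := K) hfin
  have hg' : algebraMap k K₀ (c⁻¹ ^ j) * g ≠ 0 :=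
    mul_ne_zero ((_root_.map_ne_zero _).2 (pow_ne_zero _ (inv_ne_zero hc0))) hc.g_ne
  have heq' : algebraMap k K (v ^ j) * y ^ n =
      algebraMap K₀ K (algebraMap k K₀ (c⁻¹ ^ j) * g) := by
    rw [map_mul, ← heq, ← IsScalarTower.algebraMap_apply k K₀ K, mul_pow, ← mul_assoc, ← map_mul,
      ← mul_assoc, ← mul_pow, inv_mul_cancel₀ hc0, one_pow, one_mul]
  have hS : CycE n (v ^ j) (algebraMap k K₀ (c⁻¹ ^ j) * g) x z₀ f (S ∪ {c, c⁻¹}) y :=
    ⟨hn, pow_ne_zero _ hv0, hg', hc.ff, hc.x_tr, hc.gen₀, hgen, heq', hc.deg, hc.sep,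
      goodPoly_smul hc.good hc0 j⟩
  -- the conditions at the good places
  have hgoodE : ∀ W : ValuationSubring (kbar k K),
      (∀ c : F, algebraMap k (kbar k K) (algebraMap F k c) ∈ W) →
      algebraMap k (kbar k K) v ∈ W → algebraMap k (kbar k K) u ∈ W →
      algebraMap k (kbar k K) (ev F v u Δ) ∉ W.nonunits →
      (∀ a ∈ E, algebraMap k (kbar k K) a ∈ W) ∧
        ∀ τ : kbar k K ≃ₐ[k0 F v u] kbar k K, InInert W τ →
          ∀ a : k, τ (algebraMap k (kbar k K) a) = algebraMap k (kbar k K) a := by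
    intro W hFW hvW huW hunit
    obtain ⟨h1, h2⟩ := h (kbar k K) W hFW hvW huW hunit
    refine ⟨h1, fun τ hτ => ?_⟩
    have h3 : ∀ a ∈ E, τ (algebraMap k (kbar k K) a) = algebraMap k (kbar k K) a := by
      refine h2 τ.toRingEquiv.toRingHom (fun c => ?_) ?_ ?_ hτ.2
      · exact τ.commutes ⟨algebraMap F k c, IntermediateField.algebraMap_mem _ c⟩
      · exact τ.commutes ⟨v, IntermediateField.subset_adjoin _ _ (Or.inl rfl)⟩
      · exact τ.commutes ⟨u, IntermediateField.subset_adjoin _ _ (Or.inr rfl)⟩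
    have hL : (IntermediateField.adjoin F (E : Set k)).toSubfield ≤
        (τ.toRingEquiv.toRingHom.comp (algebraMap k (kbar k K))).eqLocusField
          (algebraMap k (kbar k K)) := by
      rw [IntermediateField.adjoin_toSubfield, Subfield.closure_le]
      rintro a (⟨e, rfl⟩ | ha)
      · exact τ.commutes ⟨algebraMap F k e, IntermediateField.algebraMap_mem _ e⟩
      · exact h3 a ha
    rw [hE] at hL
    exact fun a => hL (show a ∈ (⊤ : IntermediateField F k) from trivial)
  obtain ⟨W, P, hW0, hgW, hvals, hP, hP1, hPst, hPB⟩ := core_place hF hk hvu hfin hj hS hrat hΔ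
    (fun W hFW hvW huW hunit => by
      obtain ⟨h1, h2⟩ := hgoodE W hFW hvW huW hunit
      exact ⟨fun a ha => h1 a (hgE ha), h2⟩)
    (by
      intro τ
      refine exists_agree (t0 F v u) (kM F K v u) ?_ τ
      rintro z ⟨r, rfl⟩ hz
      have h1 : IsAlgebraic (IntermediateField.adjoin F {v}) r := by
        have h2 : IsAlgebraic (IntermediateField.adjoin F {v}) (algebraMap k (kbar k K) r) := by
          refine isAlgebraic_of_range_le (A := IntermediateField.adjoin F {t0 F v u})
            (fun v' => ?_) hz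
          exact ⟨⟨_, coe_mem_adjoin0 (F := F) (t := v) (u := u) (v := v) (v' := t0 F v u) rfl
            v'.2⟩, rfl⟩
        exact (isAlgebraic_algebraMap_iff (algebraMap k (kbar k K)).injective).1 h2
      obtain ⟨c', hc', hc''⟩ := mem_adjoin0 (F := F) (t := v) (u := u) (v := v)
        (v' := t0 F v u) rfl (hreg r h1)
      refine ⟨c', hc'', ?_⟩
      rw [← hc']
      rfl) s
  have hFW : ∀ c : F, algebraMap k (kbar k K) (algebraMap F k c) ∈ W := fun c =>
    hW0.const _ (IntermediateField.algebraMap_mem _ c)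
  have hvW : algebraMap k (kbar k K) v ∈ W.nonunits := hW0.t_mem
  have huW : algebraMap k (kbar k K) u ∈ W :=
    hW0.const _ (IntermediateField.mem_adjoin_simple_self F _)
  have hW' : AtZero F v u W := by
    refine ⟨fun c hc => ?_, hW0.t_mem⟩
    obtain ⟨c', rfl, hc'⟩ := mem_adjoin0 (F := F) (t := v) (u := u) (v := u)
      (v' := u0 F v u) rfl hc
    exact hW0.const c' hc'
  obtain ⟨hEW, -⟩ := hgoodE W hFW (ValuationSubring.nonunits_subset hvW) huW
    (atZero_unit hvu hΔ hW')
  have hunitE : ∀ a : k, a ≠ 0 → a ∈ E → a⁻¹ ∈ E → W.valuation (algebraMap k (kbar k K) a) = 1 := by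
    intro a ha h1 h2
    have h3 := (W.valuation_le_one_iff _).2 (hEW a h1)
    have h4 := (W.valuation_le_one_iff _).2 (hEW _ h2)
    rw [map_inv₀, map_inv₀] at h4
    have h5 : W.valuation (algebraMap k (kbar k K) a) ≠ 0 :=
      (Valuation.ne_zero_iff _).2 ((_root_.map_ne_zero _).2 ha)
    exact le_antisymm h3 ((inv_le_one₀ (zero_lt_iff.2 h5)).1 h4)
  -- descent of the residues
  have hnor : Normal k (kbar k K) := IsAlgClosure.normal k (kbar k K)
  have hgalk : IsGalois k (kbar k K) := ⟨⟩
  have hdesc : ∀ c : kbar k K, (∀ γ : Gk k K, γ c = c) → ∃ a : k, algebraMap k (kbar k K) a = c := by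
    intro c hc'
    exact IntermediateField.mem_bot.1 ((InfiniteGalois.mem_bot_iff_fixed c).2 hc')
  have hres : ∀ z : K, (toU (k := k) (K := K) z : UU k K) ∈ P → ∃ c : k,
      toU (k := k) (K := K) z - algebraMap (kbar k K) (UU k K) (algebraMap k (kbar k K) c) ∈ P.nonunits := by
    let V : ValuationSubring (Kur k K) :=
      P.comap ((eU k K : Kur k K ≃+* UU k K) : Kur k K →+* UU k K)
    have hV : ∀ w : Kur k K, w ∈ V ↔ eU k K w ∈ P := fun w => Iff.rfl
    have hVt : V ≠ ⊤ := by
      intro h
      apply hP1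
      rw [eq_top_iff]
      intro z _
      have h2 : (eU k K).symm z ∈ V := by rw [h]; trivial
      rwa [hV, RingEquiv.apply_symm_apply] at h2
    intro z hz
    obtain ⟨c, hc1, hc2⟩ := exists_residue_fixed s hS.isFunctionField hVt (fun c => hP c) (z := z) hz
    obtain ⟨a, rfl⟩ := hdesc c (fun γ => hc2 γ fun w => by
      rw [hV, hV, ← hPst γ (eU k K w)]
      have h4 : eU k K (s.toHom γ w) = actU s γ (eU k K w) := by
        apply Subtype.ext
        rw [coe_actU]
        rfl
      rw [h4])
    refine ⟨a, ?_⟩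
    rw [← ValuationSubring.mem_nonunits_iff] at hc1
    rw [ValuationSubring.mem_nonunits_iff_or] at hc1 ⊢
    rcases hc1 with h | h
    · left
      exact congrArg (eU k K) h
    · right
      intro h3
      apply h
      rw [hV, map_inv₀]
      exact h3
  -- the place of `K₀`
  let ι : K₀ →+* UU k K := (toU (k := k) (K := K)).comp (algebraMap K₀ K)
  have hιk : ∀ c : k, ι (algebraMap k K₀ c) = algebraMap (kbar k K) (UU k K) (algebraMap k (kbar k K) c) := by
    intro c
    change toU (k := k) (K := K) (algebraMap K₀ K (algebraMap k K₀ c)) = _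
    rw [← IsScalarTower.algebraMap_apply]
    rfl
  have hnon : ∀ z : K₀, z ∈ (P.comap ι).nonunits ↔ ι z ∈ P.nonunits := by
    intro z
    rw [ValuationSubring.mem_nonunits_iff_or, ValuationSubring.mem_nonunits_iff_or,
      ValuationSubring.mem_comap, map_inv₀, map_eq_zero]
  have hιa : ∀ (z : K₀) (q : k[X]), ι (aeval z q) =
      aeval (ι z) (q.map (algebraMap k (kbar k K))) := by
    intro z q
    rw [aeval_def, hom_eval₂, aeval_def, eval₂_map]
    congr 1
    exact RingHom.ext hιk
  have hbad : x⁻¹ ∈ (P.comap ι).nonunits ∨ aeval x f ∈ (P.comap ι).nonunits := by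
    rcases hPB with h | ⟨b, hb, hxb⟩
    · left
      rw [ValuationSubring.inv_mem_nonunits_iff]
      exact Or.inr h
    · right
      rw [hnon, hιa]
      have h1 := TW.aeval_sub_mem P hP hxb (f.map (algebraMap k (kbar k K)))
      have h2 : (f.map (algebraMap k (kbar k K))).eval b = 0 := by
        unfold rootsB at hb
        rw [Multiset.mem_toFinset] at hb
        exact (mem_roots'.1 hb).2
      rw [h2, map_zero, sub_zero] at h1
      exact h1
  let O : Place k K₀ :=
    { ring := P.comap ι
      algebraMap_mem := fun c => by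
        rw [ValuationSubring.mem_comap, hιk]
        exact hP _
      ne_top := by
        intro h
        have h1 : ∀ z : K₀, z ≠ 0 → z ∉ (P.comap ι).nonunits := by
          intro z hz h2
          rcases (ValuationSubring.mem_nonunits_iff_or _).1 h2 with h3 | h3
          · exact hz h3
          · apply h3
            rw [h]
            trivial
        rcases hbad with h2 | h2
        · exact h1 _ (inv_ne_zero hx0) h2
        · refine h1 _ ?_ h2
          intro h3
          exact htf (by rw [h3]; exact isAlgebraic_zero) }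
  have hr : TW.RatPlace O := by
    intro z hz
    obtain ⟨a, ha⟩ := hres (algebraMap K₀ K z) hz
    refine ⟨a, ?_⟩
    change _ ∈ (P.comap ι).nonunits
    rw [hnon, map_sub, hιk]
    exact ha
  have hconst : ∀ c : kbar k K, algebraMap (kbar k K) (UU k K) c ∈ P.nonunits → c = 0 := by
    intro c hc'
    rcases (ValuationSubring.mem_nonunits_iff_or _).1 hc' with h | h
    · rwa [map_eq_zero] at h
    · exfalso
      apply h
      rw [← map_inv₀]
      exact hP _
  obtain ⟨uf, huf, hufW, huf'⟩ := hB O hr hbad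
  -- the branch point
  obtain ⟨δ, ⟨e, hδe⟩, hδj, hδO⟩ := hbr O hr
  obtain ⟨u', hu0, hu⟩ := huf' δ hδO
  have hδ : 0 < δ := Nat.pos_of_ne_zero (by rintro rfl; omega)
  have hW1 : W.valuation (algebraMap k (kbar k K) uf) = 1 := hufW (kbar k K) W hEW
  have hWc : W.valuation (algebraMap k (kbar k K) c) = 1 :=
    hunitE c hc0 (hgE (Finset.mem_union_right _ (Finset.mem_union_right _ (by simp))))
      (hgE (Finset.mem_union_right _ (Finset.mem_union_right _ (by simp))))
  change _ ∈ (P.comap ι).nonunits at hu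
  rw [hnon, map_sub, hιk] at hu
  have hval : ∀ c : kbar k K, c ≠ 0 → P.valuation (algebraMap (kbar k K) (UU k K) c) = 1 := by
    intro c hc'
    have h1 := (P.valuation_le_one_iff _).2 (hP c)
    have h2 := (P.valuation_le_one_iff _).2 (hP c⁻¹)
    rw [map_inv₀, map_inv₀] at h2
    have h3 : P.valuation (algebraMap (kbar k K) (UU k K) c) ≠ 0 :=
      (Valuation.ne_zero_iff _).2 ((_root_.map_ne_zero _).2 hc')
    exact le_antisymm h1 ((inv_le_one₀ (zero_lt_iff.2 h3)).1 h2)
  have hγ0 : algebraMap k (kbar k K) uf ≠ 0 := (_root_.map_ne_zero _).2 huf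
  have hcv0 : c * v ≠ 0 := mul_ne_zero hc0 hv0
  have hvj0 : algebraMap k (kbar k K) (c * v) ^ j ≠ 0 :=
    pow_ne_zero _ ((_root_.map_ne_zero _).2 hcv0)
  set Y : UU k K := toU (k := k) (K := K) (y ^ e * algebraMap K₀ K u') with hY
  have hYn : algebraMap (kbar k K) (UU k K) (algebraMap k (kbar k K) (c * v) ^ j) * Y ^ δ =
      ι (g * u' ^ δ) := by
    have h1 : algebraMap k K ((c * v) ^ j) * (y ^ e * algebraMap K₀ K u') ^ δ =
        algebraMap K₀ K (g * u' ^ δ) := by
      rw [mul_pow (y ^ e), ← pow_mul, mul_comm e δ, ← hδe, ← mul_assoc, heq, map_mul, map_pow]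
    have h2 := congrArg (toU (k := k) (K := K)) h1
    rw [map_mul, map_pow (toU (k := k) (K := K)) (y ^ e * algebraMap K₀ K u') δ] at h2
    rw [← map_pow]
    exact h2
  have hYv : P.valuation Y = 1 := by
    have h1 : P.valuation (ι (g * u' ^ δ)) = 1 := by
      have h2 := Valuation.map_add_eq_of_lt_right P.valuation
        (x := ι (g * u' ^ δ) - algebraMap (kbar k K) (UU k K) (algebraMap k (kbar k K) uf))
        (y := algebraMap (kbar k K) (UU k K) (algebraMap k (kbar k K) uf))
        (by rw [hval _ hγ0]; exact (ValuationSubring.mem_nonunits_iff _).1 hu)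
      rw [sub_add_cancel, hval _ hγ0] at h2
      exact h2
    rw [← hYn, map_mul, hval _ hvj0, one_mul, map_pow] at h1
    exact (pow_eq_one_iff_of_nonneg zero_le hδ.ne').1 h1
  obtain ⟨ρ, hρ1⟩ := hres (y ^ e * algebraMap K₀ K u') ((P.valuation_le_one_iff _).1 hYv.le)
  have hρ3 : ρ ^ δ * (c * v) ^ j = uf := by
    apply (algebraMap k (kbar k K)).injective
    rw [← sub_eq_zero]
    apply hconst
    have h1 := TW.aeval_sub_mem P hP hρ1
      (C (algebraMap k (kbar k K) (c * v) ^ j) * X ^ δ : (kbar k K)[X])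
    rw [map_mul, aeval_C, map_pow (aeval (toU (k := k) (K := K) (y ^ e * algebraMap K₀ K u') : UU k K)) X δ, aeval_X,
      eval_mul, eval_C, eval_pow, eval_X] at h1
    change algebraMap (kbar k K) (UU k K) (algebraMap k (kbar k K) (c * v) ^ j) * Y ^ δ - _ ∈ _ at h1
    rw [hYn] at h1
    have h2 : algebraMap (kbar k K) (UU k K) (algebraMap k (kbar k K) (ρ ^ δ * (c * v) ^ j) -
        algebraMap k (kbar k K) uf) =
        (ι (g * u' ^ δ) - algebraMap (kbar k K) (UU k K) (algebraMap k (kbar k K) uf)) -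
        (ι (g * u' ^ δ) - algebraMap (kbar k K) (UU k K)
          (algebraMap k (kbar k K) (c * v) ^ j * algebraMap k (kbar k K) ρ ^ δ)) := by
      rw [map_sub, map_mul (algebraMap k (kbar k K)), map_pow (algebraMap k (kbar k K)) ρ,
        map_pow (algebraMap k (kbar k K)) (c * v), mul_comm (algebraMap k (kbar k K) ρ ^ δ)]
      ring
    rw [h2, ValuationSubring.mem_nonunits_iff]
    exact P.valuation.map_sub_lt ((ValuationSubring.mem_nonunits_iff _).1 hu)
      ((ValuationSubring.mem_nonunits_iff _).1 h1)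
  -- the values at `W`
  have hρ0 : ρ ≠ 0 := by
    rintro rfl
    rw [zero_pow hδ.ne', zero_mul] at hρ3
    exact huf hρ3.symm
  obtain ⟨i, hi⟩ := hvals ρ hρ0
  have h1 := congrArg (fun a => W.valuation (algebraMap k (kbar k K) a)) hρ3
  simp only [map_mul, map_pow] at h1
  rw [hi, hW1, hWc, one_mul] at h1
  set ω := W.valuation (algebraMap k (kbar k K) v) with hω
  have hω1 : ω < 1 := (ValuationSubring.mem_nonunits_iff _).1 hvW
  have hω0 : ω ≠ 0 := (Valuation.ne_zero_iff _).2 ((_root_.map_ne_zero _).2 hv0)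
  have h2 : ω ^ (i * δ + j) = 1 := by
    rw [zpow_add₀ hω0, zpow_mul, zpow_natCast, zpow_natCast]
    exact h1
  have h3 : i * δ + j = 0 := by
    by_contra hne
    rcases lt_or_gt_of_ne hne with h4 | h4
    · have h5 : ω ^ (-(i * δ + j)) = 1 := by rw [zpow_neg, h2, inv_one]
      have h6 : 0 < -(i * (δ : ℤ) + j) := by omega
      obtain ⟨m, hm⟩ := Int.eq_ofNat_of_zero_le h6.le
      rw [hm, zpow_natCast] at h5
      have h7 : m ≠ 0 := by omega
      exact (pow_lt_one₀ zero_le hω1 h7).ne h5
    · obtain ⟨m, hm⟩ := Int.eq_ofNat_of_zero_le h4.le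
      rw [hm, zpow_natCast] at h2
      have h7 : m ≠ 0 := by omega
      exact (pow_lt_one₀ zero_le hω1 h7).ne h2
  apply hδj
  have h4 : (δ : ℤ) ∣ (j : ℤ) := ⟨-i, by linarith⟩
  exact_mod_cast h4

end Pool.Agent.TWU
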