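import Pool.Agent.Helper37.TWU.F
import Pool.Agent.Helper37.OPG.U1
import Pool.Agent.Helper37.TWH.F
import Pool.Agent.Helper37.TWU.E
import Pool.Agent.Helper37.TWU.D

/-!
# Project TWU: the final assembly
-/

universe u

set_option linter.unusedSectionVars false

namespace Pool.Agent.TWU

open VC Polynomial Pool.Agent.LT Pool.Agent.SC Pool.Agent.GC Pool.Agent.Helper91.Sect Pool.Agent
  Pool.Agent.TWH

/-- the elements which have to be regular at the good places, for clause 2 -/
theorem exists_residElts {k₀ K₀ : Type u} [Field k₀] [CharZero k₀] [DecidableEq k₀] [Field K₀]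
    [Algebra k₀ K₀] {g x z₀ : K₀} {f : k₀[X]} {S : Finset k₀} (hc : Coord g x z₀ f S) :
    ∃ E₀ : Finset k₀, ∀ (k K₁ : Type u) [Field k] [Field K₁] [Algebra k K₁] [Algebra k₀ k]
      [Algebra K₀ K₁] [Algebra k₀ K₁] [IsScalarTower k₀ k K₁] [IsScalarTower k₀ K₀ K₁],
      IsFunctionField k K₁ →
      IntermediateField.adjoin k (Set.range (algebraMap K₀ K₁)) = ⊤ →
      ∀ O : Place k K₁, TW.RatPlace O → ((algebraMap K₀ K₁ x)⁻¹ ∈ O.ring.nonunits ∨
        aeval (algebraMap K₀ K₁ x) (f.map (algebraMap k₀ k)) ∈ O.ring.nonunits) →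
      ∃ γ : k, γ ≠ 0 ∧ (∀ (Ω : Type u) [Field Ω] [Algebra k Ω] (W : ValuationSubring Ω),
        (∀ a ∈ E₀, algebraMap k Ω (algebraMap k₀ k a) ∈ W) →
          W.valuation (algebraMap k Ω γ) = 1) ∧
      ∀ n : ℕ, (n : ℤ) ∣ ord O.ring (algebraMap K₀ K₁ g) →
        ∃ u : K₁, u ≠ 0 ∧ algebraMap K₀ K₁ g * u ^ n - algebraMap k K₁ γ ∈ O.ring.nonunits := by
  classical
  have hx0 : x ≠ 0 := by
    rintro rfl
    exact hc.x_tr isAlgebraic_zero
  have htx : Transcendental k₀ x⁻¹ := fun h => hc.x_tr (by rw [← inv_inv x]; exact h.inv)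
  have htf : Transcendental k₀ (aeval x f) := hc.x_tr.aeval f (by have := hc.deg; omega)
    (mem_nonZeroDivisors_of_ne_zero
      (leadingCoeff_ne_zero.2 (ne_zero_of_natDegree_gt (n := 0) (by have := hc.deg; omega))))
  let OO : Set (Place k₀ K₀) := {O | x⁻¹ ∈ O.ring.nonunits} ∪ {O | aeval x f ∈ O.ring.nonunits}
  have hOO : OO.Finite := (TW.finite_zeros hc.ff htx).union (TW.finite_zeros hc.ff htf)
  choose p hpm hp0 hp using fun O₀ : Place k₀ K₀ => exists_resid hc.ff O₀ hc.g_ne
  refine ⟨(hOO.toFinset.biUnion fun O₀ => (Finset.range ((p O₀).natDegree + 1)).image (p O₀).coeff) ∪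
    hOO.toFinset.image (fun O₀ => ((p O₀).coeff 0)⁻¹), ?_⟩
  intro k K₁ _ _ _ _ _ _ _ _ hF hgen O hr hbad
  have hk : CharZero k := charZero_of_injective_algebraMap (algebraMap k₀ k).injective
  have hbad' : algebraMap K₀ K₁ x⁻¹ ∈ O.ring.nonunits ∨
      algebraMap K₀ K₁ (aeval x f) ∈ O.ring.nonunits := by
    rw [map_inv₀, aeval_alg (k := k)]
    exact hbad
  have hnon : ∀ z : K₀, z ∈ (O.ring.comap (algebraMap K₀ K₁)).nonunits ↔
      algebraMap K₀ K₁ z ∈ O.ring.nonunits := by
    intro z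
    rw [ValuationSubring.mem_nonunits_iff_or, ValuationSubring.mem_nonunits_iff_or,
      ValuationSubring.mem_comap, map_inv₀, map_eq_zero]
  rw [← hnon, ← hnon] at hbad'
  let O₀ : Place k₀ K₀ :=
    { ring := O.ring.comap (algebraMap K₀ K₁)
      algebraMap_mem := fun c => by
        rw [ValuationSubring.mem_comap, ← IsScalarTower.algebraMap_apply,
          IsScalarTower.algebraMap_apply k₀ k K₁]
        exact O.algebraMap_mem _
      ne_top := by
        intro h
        have h1 : ∀ z : K₀, z ≠ 0 → z ∉ (O.ring.comap (algebraMap K₀ K₁)).nonunits := by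
          intro z hz h2
          rcases (ValuationSubring.mem_nonunits_iff_or _).1 h2 with h3 | h3
          · exact hz h3
          · apply h3
            rw [h]
            trivial
        rcases hbad' with h2 | h2
        · exact h1 _ (inv_ne_zero hx0) h2
        · refine h1 _ ?_ h2
          intro h3
          exact htf (by rw [h3]; exact isAlgebraic_zero) }
  have hO : O₀ ∈ hOO.toFinset := by
    rw [Set.Finite.mem_toFinset]
    exact hbad'
  obtain ⟨γ, hγ0, hγ, h1⟩ := hp O₀ k K₁ hF hgen O hr (fun z => Iff.rfl)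
  refine ⟨γ, hγ0, ?_, h1⟩
  intro Ω _ _ W hW
  let iΩ : Algebra k₀ Ω := ((algebraMap k Ω).comp (algebraMap k₀ k)).toAlgebra
  have sΩ : IsScalarTower k₀ k Ω := IsScalarTower.of_algebraMap_eq fun _ => rfl
  refine val_root (hpm O₀) (hp0 O₀) (γ := algebraMap k Ω γ) ?_ (fun i => ?_) ?_
  · rw [aeval_algebraMap_apply, hγ, map_zero]
  · by_cases hi : i ≤ (p O₀).natDegree
    · refine hW _ (Finset.mem_union_left _ (Finset.mem_biUnion.2 ⟨O₀, hO, ?_⟩))
      exact Finset.mem_image_of_mem _ (Finset.mem_range.2 (by omega))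
    · rw [coeff_eq_zero_of_natDegree_lt (not_le.1 hi), map_zero]
      exact W.zero_mem
  · exact hW _ (Finset.mem_union_right _
      (Finset.mem_image_of_mem (fun O₀ => ((p O₀).coeff 0)⁻¹) hO))

/-- **All Galois sections of the twists are geometric outside a hypersurface**, one hypersurface for all fields of
constants. -/
theorem twists_hypersurfaceU {F₀ k₀ K₀ : Type u} [Field F₀] [CharZero F₀] [Field k₀] [Algebra F₀ k₀]
    [Field K₀] [Algebra k₀ K₀]
    (hk₀ : ∃ S : Finset k₀, Subfield.closure (S : Set k₀) = ⊤) {m : ℕ} {w : Fin (m + 1) → k₀}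
    {i j l : Fin (m + 1)} (hw : AlgebraicIndependent F₀ ![w i / w l, w j / w l])
    (hK₀ : IsFunctionField k₀ K₀) {g : K₀} (hg : g ≠ 0) :
    ∃ Ψ : MvPolynomial (Fin (m + 1)) F₀, Ψ ≠ 0 ∧
      ∀ (F k K₁ : Type u) [Field F] [Field k] [Field K₁] [Algebra F₀ F] [Algebra F k] [Algebra k₀ k]
        [Algebra F₀ k] [IsScalarTower F₀ F k] [IsScalarTower F₀ k₀ k] [Algebra k K₁] [Algebra K₀ K₁]
        [Algebra k₀ K₁] [IsScalarTower k₀ k K₁] [IsScalarTower k₀ K₀ K₁],
        (∃ S : Finset F, Subfield.closure (S : Set F) = ⊤) →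
        IntermediateField.adjoin F (Set.range (algebraMap k₀ k)) = ⊤ →
        (∀ {n : ℕ} {x : Fin n → k₀}, AlgebraicIndependent F₀ x →
          AlgebraicIndependent F (algebraMap k₀ k ∘ x)) →
        IntermediateField.adjoin k (Set.range (algebraMap K₀ K₁)) = ⊤ →
        (∃ y : K₀, Transcendental k (algebraMap K₀ K₁ y)) →
        ∀ a : Fin (m + 1) → F, MvPolynomial.aeval a Ψ ≠ 0 →
          GoodTwist (algebraMap K₀ K₁ g) (∑ e, algebraMap F k (a e) * algebraMap k₀ k (w e)) ∧
          TW.NoSecTwist (algebraMap K₀ K₁ g)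
            (∑ e, algebraMap F k (a e) * algebraMap k₀ k (w e)) ∧ IsFunctionField k K₁ := by
  classical
  have hk₀0 : CharZero k₀ := charZero_of_injective_algebraMap (algebraMap F₀ k₀).injective
  have hl0 : w l ≠ 0 := by
    intro h
    rw [h, div_zero] at hw
    exact transc_F_t hw isAlgebraic_zero
  obtain ⟨F₁, htu, hall, hbase⟩ := exists_base_fieldU hk₀ hw
  have hF₁0 : CharZero F₁ := charZero_of_injective_algebraMap (algebraMap F₀ F₁).injective
  obtain ⟨x, z₀, f, S, hx, hgen, hdeg, hsep, hgood⟩ := exists_goodPoly hK₀ hg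
  have hc : Coord g x z₀ f S := ⟨hg, hK₀, hx, hgen, hdeg, hsep, hgood⟩
  obtain ⟨E₀, hE₀⟩ := exists_residElts hc
  obtain ⟨Sk, hSk⟩ := id hk₀
  set E : Finset k₀ := (goodElts f 1 ∪ (S ∪ {w l, (w l)⁻¹})) ∪ E₀ ∪ Sk ∪ {w i / w l} with hE
  obtain ⟨Ψ₁, hΨ₁, Ψ₂, hΨ₂, h12⟩ := exists_goodAt (ι := Fin (m + 1)) (w := fun e => w e / w l)
    (i := i) (j := j) (l := l) (div_self hl0) htu hall E
  have hΨ₁k : MvPolynomial.map (algebraMap F₁ k₀) Ψ₁ ≠ 0 := fun h0 =>
    hΨ₁ (MvPolynomial.map_injective _ (algebraMap F₁ k₀).injective (by rw [h0, map_zero]))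
  obtain ⟨Ψ₁', hΨ₁', h1⟩ := OPG.exists_restrictU (F₀ := F₀) hk₀ hΨ₁k
  obtain ⟨Ψ₂', hΨ₂', h2⟩ := OPG.exists_restrictU (F₀ := F₀) hk₀ hΨ₂
  refine ⟨Ψ₁' * Ψ₂', mul_ne_zero hΨ₁' hΨ₂', ?_⟩
  intro F k K₁ _ _ _ _ _ _ _ _ _ _ _ _ _ _ hF hgenk hfree hgenK htr a ha
  rw [map_mul] at ha
  obtain ⟨ha1, ha2⟩ := mul_ne_zero_iff.1 ha
  have hF0 : CharZero F := charZero_of_injective_algebraMap (algebraMap F₀ F).injective
  have hk0 : CharZero k := charZero_of_injective_algebraMap (algebraMap F k).injective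
  have hk := fg_composite hF hk₀ hgenk
  obtain ⟨F', hF', hF'k, htu', hfin, hF₁F'⟩ := hbase F k hF hgenk (fun hx => hfree hx)
  let i1 : Algebra F₁ F' :=
    (((algebraMap k₀ k).comp (algebraMap F₁ k₀)).codRestrict F'.toSubring
      fun z => hF₁F' _ z.2).toAlgebra
  have s1 : IsScalarTower F₁ F' k := IsScalarTower.of_algebraMap_eq fun _ => rfl
  have s2 : IsScalarTower F₁ k₀ k := IsScalarTower.of_algebraMap_eq fun _ => rfl
  set b : Fin (m + 1) → F' := fun e => algebraMap F F' (a e) with hb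
  have hbk : ∀ e, algebraMap F' k (b e) = algebraMap F k (a e) := fun e => rfl
  have hb1 : MvPolynomial.aeval b Ψ₁ ≠ 0 := by
    intro h0
    apply h1 F k (fun hx => hfree hx) a ha1
    have h3 := congrArg (algebraMap F' k) h0
    rw [map_zero] at h3
    rw [MvPolynomial.eval₂_map, ← h3, ← MvPolynomial.aeval_algebraMap_apply,
      MvPolynomial.aeval_def]
    rfl
  have hb2 : MvPolynomial.aeval (fun e => algebraMap F' k (b e)) Ψ₂ ≠ 0 := by
    have h3 := h2 F k (fun hx => hfree hx) a ha2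
    rw [MvPolynomial.aeval_def]
    exact h3
  obtain ⟨⟨Δ, hΔ, hgoodAt⟩, halg⟩ := h12 F' k b hb1 hb2
  set v : k := ∑ e, algebraMap F' k (b e) * algebraMap k₀ k (w e / w l) with hv
  set c' : k := algebraMap k₀ k (w l) with hc'
  have hc'0 : c' ≠ 0 := (_root_.map_ne_zero _).2 hl0
  have hsum : ∑ e, algebraMap F k (a e) * algebraMap k₀ k (w e) = c' * v := by
    rw [hv, Finset.mul_sum]
    refine Finset.sum_congr rfl fun e _ => ?_
    rw [hbk, map_div₀, hc']
    have h3 : algebraMap k₀ k (w l) ≠ 0 := hc'0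
    field_simp
  have hti : IsAlgebraic (IntermediateField.adjoin F' {v, algebraMap k₀ k (w j / w l)})
      (algebraMap k₀ k (w i / w l)) :=
    halg _ (Finset.mem_union_right _ (Finset.mem_singleton_self _))
  have hall1 : ∀ z : k, IsAlgebraic (IntermediateField.adjoin F'
      {algebraMap k₀ k (w i / w l), algebraMap k₀ k (w j / w l)}) z :=
    fun z => Algebra.IsAlgebraic.isAlgebraic z
  obtain ⟨hvu, hall'⟩ := algInd_exchange htu' hall1 hti
  have hfin' := finite_k0 hk hall'
  set E' : Finset k := E.image (algebraMap k₀ k) with hE'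
  have hE1 : IntermediateField.adjoin F' (E' : Set k) = ⊤ := by
    have h3 : ∀ z : k₀, algebraMap k₀ k z ∈ IntermediateField.adjoin F' (E' : Set k) := by
      have h4 : (⊤ : Subfield k₀) ≤
          (IntermediateField.adjoin F' (E' : Set k)).toSubfield.comap (algebraMap k₀ k) := by
        rw [← hSk, Subfield.closure_le]
        intro z hz
        refine IntermediateField.subset_adjoin _ _ ?_
        rw [Finset.mem_coe, hE']
        refine Finset.mem_image_of_mem _ ?_
        exact Finset.mem_union_left _ (Finset.mem_union_right _ hz)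
      exact fun z => h4 trivial
    have h4 : IntermediateField.adjoin F (Set.range (algebraMap k₀ k)) ≤
        (IntermediateField.adjoin F' (E' : Set k)).restrictScalars F := by
      rw [IntermediateField.adjoin_le_iff]
      rintro _ ⟨z, rfl⟩
      exact h3 z
    rw [eq_top_iff]
    intro z _
    rw [hgenk] at h4
    exact h4 (IntermediateField.mem_top (x := z))
  have hE2 : goodElts (f.map (algebraMap k₀ k)) 1 ∪
      (S.image (algebraMap k₀ k) ∪ {c', c'⁻¹}) ⊆ E' := by
    intro z hz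
    rw [hE']
    rcases Finset.mem_union.1 hz with hz | hz
    · refine Finset.image_subset_image ?_ (goodElts_map hdeg hz)
      exact fun y hy => Finset.mem_union_left _ (Finset.mem_union_left _ (Finset.mem_union_left _
        (Finset.mem_union_left _ hy)))
    rcases Finset.mem_union.1 hz with hz | hz
    · refine Finset.image_subset_image ?_ hz
      exact fun y hy => Finset.mem_union_left _ (Finset.mem_union_left _ (Finset.mem_union_left _
        (Finset.mem_union_right _ (Finset.mem_union_left _ hy))))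
    · have h3 : z ∈ ({w l, (w l)⁻¹} : Finset k₀).image (algebraMap k₀ k) := by
        rw [Finset.mem_insert, Finset.mem_singleton] at hz
        rcases hz with rfl | rfl
        · exact Finset.mem_image_of_mem _ (by simp)
        · rw [hc', ← map_inv₀]
          exact Finset.mem_image_of_mem _ (by simp)
      refine Finset.image_subset_image ?_ h3
      exact fun y hy => Finset.mem_union_left _ (Finset.mem_union_left _ (Finset.mem_union_left _
        (Finset.mem_union_right _ (Finset.mem_union_right _ hy))))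
  have hE3 : ∀ z ∈ E₀, algebraMap k₀ k z ∈ E' := by
    intro z hz
    rw [hE']
    refine Finset.mem_image_of_mem _ ?_
    exact Finset.mem_union_left _ (Finset.mem_union_left _ (Finset.mem_union_right _ hz))
  have hreg : ∀ z : k, IsAlgebraic (IntermediateField.adjoin F' {v}) z →
      z ∈ IntermediateField.adjoin F' {v} := fun z hz =>
    algClosed_of_goodAt hvu hfin' (fun z hz => ⟨⟨z, hF'k z hz⟩, rfl⟩) hΔ hE1 hgoodAt z hz
  have hxk : Transcendental k (algebraMap K₀ K₁ x) := transc_map hK₀ hx htr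
  have hc1 : Coord (algebraMap K₀ K₁ g) (algebraMap K₀ K₁ x) (algebraMap K₀ K₁ z₀)
      (f.map (algebraMap k₀ k)) (S.image (algebraMap k₀ k)) := coord_map hc hgenK hxk
  rw [hsum]
  refine ⟨goodTwist_of_goodAt hF' hk hvu hfin' hreg hc1 hc'0 hΔ hE1 hE2 hgoodAt,
    noSecTwist_of_resid hF' hk hc1 hvu hfin' hreg hc'0 hΔ hE1 hE2 hgoodAt ?_, hc1.ff⟩
  intro O hr hbad
  obtain ⟨γ, hγ0, hγW, hγ⟩ := hE₀ k K₁ hc1.ff hgenK O hr hbad
  exact ⟨γ, hγ0, fun Ω _ _ W hW => hγW Ω W fun z hz => hW _ (hE3 z hz), hγ⟩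

end Pool.Agent.TWU
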