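import Pool.Agent.Helper37.TWU.K

/-!
# Project TWU: all Galois sections of the twists outside a hypersurface are geometric, one hypersurface for all fields
# of constants
-/

universe u

set_option linter.unusedSectionVars false

namespace Pool.Agent.TWU

open VC Polynomial Pool.Agent.LT Pool.Agent.SC Pool.Agent.GC Pool.Agent.Helper91.Sect Pool.Agent

section coord

variable {k₀ K₀ k K₁ : Type u} [Field k₀] [CharZero k₀] [Field K₀] [Algebra k₀ K₀] [Field k]
  [CharZero k] [Field K₁] [Algebra k K₁] [Algebra k₀ k] [Algebra K₀ K₁] [Algebra k₀ K₁]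
  [IsScalarTower k₀ k K₁] [IsScalarTower k₀ K₀ K₁]

theorem goodPoly_map [DecidableEq k] {g x z₀ : K₀} {f : k₀[X]} {S : Finset k₀}
    (h : GoodPoly g x z₀ f S) :
    GoodPoly (algebraMap K₀ K₁ g) (algebraMap K₀ K₁ x) (algebraMap K₀ K₁ z₀)
      (f.map (algebraMap k₀ k)) (S.image (algebraMap k₀ k)) := by
  intro Ω _ _ P hP hx hf
  let iΩ : Algebra K₀ Ω := ((algebraMap K₁ Ω).comp (algebraMap K₀ K₁)).toAlgebra
  have hc : ∀ c : k₀, algebraMap K₀ Ω (algebraMap k₀ K₀ c) =
      algebraMap K₁ Ω (algebraMap k K₁ (algebraMap k₀ k c)) := by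
    intro c
    change algebraMap K₁ Ω (algebraMap K₀ K₁ (algebraMap k₀ K₀ c)) = _
    rw [← IsScalarTower.algebraMap_apply k₀ K₀ K₁, ← IsScalarTower.algebraMap_apply k₀ k K₁]
  obtain ⟨h1, h2, h3, h4⟩ := h Ω P (fun c hcS => by
    rw [hc]
    exact hP _ (Finset.mem_image_of_mem _ hcS)) hx (by
    change algebraMap K₁ Ω (algebraMap K₀ K₁ (aeval x f)) ∉ _
    rw [aeval_alg (k := k)]
    exact hf)
  exact ⟨h1, h2, h3, fun σ hσ hσx hσz => h4 σ (fun c => by rw [hc]; exact hσ _) hσx hσz⟩

theorem transc_map {x : K₀} (hF : IsFunctionField k₀ K₀) (hx : Transcendental k₀ x)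
    (htr : ∃ y : K₀, Transcendental k (algebraMap K₀ K₁ y)) :
    Transcendental k (algebraMap K₀ K₁ x) := by
  intro hxa
  obtain ⟨y, hy⟩ := htr
  apply hy
  have hfin := hF.finiteDimensional hx
  have h1 : IsAlgebraic (IntermediateField.adjoin k₀ {x}) (algebraMap K₀ K₁ y) :=
    (Algebra.IsAlgebraic.isAlgebraic (R := IntermediateField.adjoin k₀ {x}) y).algebraMap
  have h2 : ∀ a : IntermediateField.adjoin k₀ {x}, algebraMap K₀ K₁ a ∈ algebraicClosure k K₁ := by
    have h3 : (IntermediateField.adjoin k₀ {x}).toSubfield ≤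
        (algebraicClosure k K₁).toSubfield.comap (algebraMap K₀ K₁) := by
      rw [IntermediateField.adjoin_toSubfield, Subfield.closure_le]
      rintro _ (⟨c, rfl⟩ | hz)
      · change algebraMap K₀ K₁ (algebraMap k₀ K₀ c) ∈ algebraicClosure k K₁
        rw [← IsScalarTower.algebraMap_apply, IsScalarTower.algebraMap_apply k₀ k K₁]
        exact IntermediateField.algebraMap_mem _ _
      · rw [Set.mem_singleton_iff.1 hz]
        exact mem_algebraicClosure_iff.2 hxa
    exact fun a => h3 a.2
  have h3 : IsAlgebraic (algebraicClosure k K₁) (algebraMap K₀ K₁ y) :=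
    isAlgebraic_of_range_le (A := IntermediateField.adjoin k₀ {x}) (fun a => ⟨⟨_, h2 a⟩, rfl⟩) h1
  exact (isIntegral_trans (R := k) (A := algebraicClosure k K₁) _ h3.isIntegral).isAlgebraic

theorem coord_map [DecidableEq k] {g x z₀ : K₀} {f : k₀[X]} {S : Finset k₀} (hc : Coord g x z₀ f S)
    (hgen : IntermediateField.adjoin k (Set.range (algebraMap K₀ K₁)) = ⊤)
    (htr : Transcendental k (algebraMap K₀ K₁ x)) :
    Coord (algebraMap K₀ K₁ g) (algebraMap K₀ K₁ x) (algebraMap K₀ K₁ z₀)
      (f.map (algebraMap k₀ k)) (S.image (algebraMap k₀ k)) := by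
  set x' := algebraMap K₀ K₁ x with hx'
  set z' := algebraMap K₀ K₁ z₀ with hz'
  have htop : IntermediateField.adjoin k {x', z'} = ⊤ := by
    have h1 : ∀ a : K₀, algebraMap K₀ K₁ a ∈ IntermediateField.adjoin k {x', z'} := by
      have h2 : (IntermediateField.adjoin k₀ {x, z₀}).toSubfield ≤
          (IntermediateField.adjoin k {x', z'}).toSubfield.comap (algebraMap K₀ K₁) := by
        rw [IntermediateField.adjoin_toSubfield, Subfield.closure_le]
        rintro _ (⟨c, rfl⟩ | rfl | hz)
        · change algebraMap K₀ K₁ (algebraMap k₀ K₀ c) ∈ IntermediateField.adjoin k {x', z'}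
          rw [← IsScalarTower.algebraMap_apply, IsScalarTower.algebraMap_apply k₀ k K₁]
          exact IntermediateField.algebraMap_mem _ _
        · exact IntermediateField.subset_adjoin _ _ (Or.inl rfl)
        · rw [Set.mem_singleton_iff.1 hz]
          exact IntermediateField.subset_adjoin _ _ (Or.inr rfl)
      rw [hc.gen₀] at h2
      exact fun a => h2 (show a ∈ (⊤ : IntermediateField k₀ K₀) from trivial)
    rw [eq_top_iff, ← hgen, IntermediateField.adjoin_le_iff]
    rintro _ ⟨a, rfl⟩
    exact h1 a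
  have hfin0 := hc.ff.finiteDimensional hc.x_tr
  have hz : IsAlgebraic (IntermediateField.adjoin k {x'}) z' := by
    have h1 : IsAlgebraic (IntermediateField.adjoin k₀ {x}) (algebraMap K₀ K₁ z₀) :=
      (Algebra.IsAlgebraic.isAlgebraic (R := IntermediateField.adjoin k₀ {x}) z₀).algebraMap
    have h2 : ∀ a : IntermediateField.adjoin k₀ {x}, algebraMap K₀ K₁ a ∈
        IntermediateField.adjoin k {x'} := by
      have h3 : (IntermediateField.adjoin k₀ {x}).toSubfield ≤
          (IntermediateField.adjoin k {x'}).toSubfield.comap (algebraMap K₀ K₁) := by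
        rw [IntermediateField.adjoin_toSubfield, Subfield.closure_le]
        rintro _ (⟨c, rfl⟩ | hz)
        · change algebraMap K₀ K₁ (algebraMap k₀ K₀ c) ∈ IntermediateField.adjoin k {x'}
          rw [← IsScalarTower.algebraMap_apply, IsScalarTower.algebraMap_apply k₀ k K₁]
          exact IntermediateField.algebraMap_mem _ _
        · rw [Set.mem_singleton_iff.1 hz]
          exact IntermediateField.mem_adjoin_simple_self k x'
      exact fun a => h3 a.2
    exact isAlgebraic_of_range_le (A := IntermediateField.adjoin k₀ {x})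
      (fun a => ⟨⟨_, h2 a⟩, rfl⟩) h1
  have htop' : IntermediateField.adjoin (IntermediateField.adjoin k {x'}) {z'} = ⊤ := by
    have h4 : (IntermediateField.adjoin (IntermediateField.adjoin k {x'}) {z'}).restrictScalars k =
        IntermediateField.adjoin k {x', z'} := by
      rw [IntermediateField.adjoin_adjoin_left]
      rfl
    rw [eq_top_iff]
    intro a _
    have h5 : a ∈ (IntermediateField.adjoin (IntermediateField.adjoin k {x'})
        {z'}).restrictScalars k := by
      rw [h4, htop]
      trivial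
    exact h5
  have hfin : FiniteDimensional (IntermediateField.adjoin k {x'}) K₁ := by
    have h1 : FiniteDimensional (IntermediateField.adjoin k {x'})
        (IntermediateField.adjoin (IntermediateField.adjoin k {x'}) {z'}) :=
      IntermediateField.adjoin.finiteDimensional hz.isIntegral
    rw [htop'] at h1
    exact (IntermediateField.topEquiv (F := IntermediateField.adjoin k {x'})
      (E := K₁)).toLinearEquiv.finiteDimensional
  exact ⟨(_root_.map_ne_zero _).2 hc.g_ne, ⟨x', htr, hfin⟩, htr, htop, by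
    rw [natDegree_map]; exact hc.deg, hc.sep.map, goodPoly_map hc.good⟩

theorem goodElts_map [DecidableEq k₀] [DecidableEq k] {f : k₀[X]} (hf : 1 ≤ f.natDegree) :
    goodElts (f.map (algebraMap k₀ k)) 1 ⊆ (goodElts f 1).image (algebraMap k₀ k) := by
  intro z hz
  unfold goodElts at hz ⊢
  rw [Finset.mem_union, Finset.mem_image] at hz
  rw [Finset.mem_image]
  rcases hz with ⟨i, hi, rfl⟩ | hz
  · rw [natDegree_map] at hi
    exact ⟨f.coeff i, Finset.mem_union_left _ (Finset.mem_image_of_mem _ hi), by rw [coeff_map]⟩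
  · simp only [Finset.mem_insert, Finset.mem_singleton] at hz
    rcases hz with rfl | rfl | rfl | rfl
    · exact ⟨f.leadingCoeff⁻¹, Finset.mem_union_right _ (by simp), by
        rw [map_inv₀, leadingCoeff_map]⟩
    · exact ⟨f.discr⁻¹, Finset.mem_union_right _ (by simp), by
        rw [map_inv₀, discr_map_of_injective _ (algebraMap k₀ k).injective f hf]⟩
    · exact ⟨1, Finset.mem_union_right _ (by simp), map_one _⟩
    · exact ⟨1⁻¹, Finset.mem_union_right _ (by simp), by rw [map_inv₀, map_one]⟩

end coord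

/-- The roots of a monic polynomial with constant coefficient `≠ 0` are units at the valuation rings which contain
the coefficients and the inverse of the constant coefficient. -/
theorem val_root {k₀ Ω : Type u} [Field k₀] [Field Ω] [Algebra k₀ Ω] {p : k₀[X]} (hp : p.Monic)
    (hp0 : p.coeff 0 ≠ 0) {γ : Ω} (hγ : aeval γ p = 0) {W : ValuationSubring Ω}
    (hW : ∀ i, algebraMap k₀ Ω (p.coeff i) ∈ W) (hW0 : algebraMap k₀ Ω (p.coeff 0)⁻¹ ∈ W) :
    W.valuation γ = 1 := by
  classical
  have hT : ((p.map (algebraMap k₀ Ω)).coeffs : Set Ω) ⊆ W.toSubring := by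
    intro c hc
    rw [Finset.mem_coe, mem_coeffs_iff] at hc
    obtain ⟨i, -, rfl⟩ := hc
    rw [coeff_map]
    exact hW i
  have hγW : γ ∈ W := by
    have h3 : IsIntegral W γ := by
      refine ⟨(p.map (algebraMap k₀ Ω)).toSubring W.toSubring hT,
        (monic_toSubring _ _ _).2 (hp.map _), ?_⟩
      have h4 := map_toSubring (p.map (algebraMap k₀ Ω)) W.toSubring hT
      have h5 : eval γ (((p.map (algebraMap k₀ Ω)).toSubring W.toSubring hT).map
          W.toSubring.subtype) = 0 := by
        rw [h4, eval_map, ← aeval_def, hγ]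
      rw [eval_map] at h5
      exact h5
    obtain ⟨y, hy⟩ := IsIntegrallyClosed.isIntegral_iff.mp h3
    rw [← hy]
    exact y.2
  have hdW : aeval γ p.divX ∈ W := by
    rw [aeval_eq_sum_range]
    refine sum_mem fun i _ => ?_
    rw [Algebra.smul_def, coeff_divX]
    exact W.mul_mem _ _ (hW _) (pow_mem hγW i)
  have h1 : aeval γ p.divX * γ = -algebraMap k₀ Ω (p.coeff 0) := by
    rw [eq_neg_iff_add_eq_zero, ← hγ]
    conv_rhs => rw [← divX_mul_X_add p]
    rw [map_add, map_mul, aeval_X, aeval_C]
  have hγ0 : γ ≠ 0 := by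
    rintro rfl
    rw [mul_zero] at h1
    exact hp0 ((map_eq_zero _).1 (neg_eq_zero.1 h1.symm))
  have hγi : γ⁻¹ ∈ W := by
    have h2 : γ⁻¹ = -(aeval γ p.divX * algebraMap k₀ Ω (p.coeff 0)⁻¹) := by
      have hc0 : algebraMap k₀ Ω (p.coeff 0) ≠ 0 := (_root_.map_ne_zero _).2 hp0
      rw [map_inv₀]
      field_simp
      linear_combination h1
    rw [h2]
    exact W.neg_mem _ (W.mul_mem _ _ hdW hW0)
  have h2 := (W.valuation_le_one_iff _).2 hγW
  have h3 := (W.valuation_le_one_iff _).2 hγi
  rw [map_inv₀] at h3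
  have h5 : W.valuation γ ≠ 0 := (Valuation.ne_zero_iff _).2 hγ0
  exact le_antisymm h2 ((inv_le_one₀ (zero_lt_iff.2 h5)).1 h3)

end Pool.Agent.TWU
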