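import Pool.Agent.Helper13.TW.FP2

/-!
# Project TWU: places of constant extensions

Let `K₀ / k₀` be a function field of one variable (characteristic zero), `K₁ = k K₀` an extension of the field of
constants, and `O` a place of `K₁ / k` with residue field `k` which is not trivial on `K₀`.  Then `O` is unramified
over the place of `K₀` below `O`.
-/

universe u

set_option linter.unusedSectionVars false

namespace Pool.Agent.TWU

open VC Polynomial Pool.Agent.TW Pool.Agent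

section ordlemmas

variable {k F : Type u} [Field k] [CharZero k] [Field F] [Algebra k F]

theorem ord_mul' (hF : IsFunctionField k F) (P : Place k F) {a b : F} (ha : a ≠ 0) (hb : b ≠ 0) :
    ord P.ring (a * b) = ord P.ring a + ord P.ring b := by
  obtain ⟨w, hw, π, hπ⟩ := exists_val hF P
  have h1 := valuation_eq_exp_ord hw hπ (mul_ne_zero ha hb)
  rw [map_mul, valuation_eq_exp_ord hw hπ ha, valuation_eq_exp_ord hw hπ hb,
    ← WithZero.exp_add] at h1
  have h2 := WithZero.exp_injective h1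
  omega

theorem mem_iff_ord (hF : IsFunctionField k F) (P : Place k F) {a : F} (ha : a ≠ 0) :
    a ∈ P.ring ↔ 0 ≤ ord P.ring a := by
  obtain ⟨w, hw, π, hπ⟩ := exists_val hF P
  have h1 : a ∈ P.ring ↔ w a ≤ 1 := by
    rw [← hw]
    exact Valuation.mem_valuationSubring_iff w a
  rw [h1, valuation_eq_exp_ord hw hπ ha, ← WithZero.exp_zero, WithZero.exp_le_exp]
  omega

theorem nonunit_iff_ord (hF : IsFunctionField k F) (P : Place k F) {a : F} (ha : a ≠ 0) :
    a ∈ P.ring.nonunits ↔ 0 < ord P.ring a := by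
  obtain ⟨w, hw, π, hπ⟩ := exists_val hF P
  rw [mem_nonunits_of_valuation hw, valuation_eq_exp_ord hw hπ ha, ← WithZero.exp_zero,
    WithZero.exp_lt_exp]
  omega

theorem exists_unif (hF : IsFunctionField k F) (P : Place k F) :
    ∃ π : F, π ≠ 0 ∧ ord P.ring π = 1 := by
  obtain ⟨w, hw, π, hπ⟩ := exists_val hF P
  have hπ0 : π ≠ 0 := by
    rintro rfl
    rw [map_zero] at hπ
    exact WithZero.exp_ne_zero hπ.symm
  refine ⟨π, hπ0, ?_⟩
  have h1 := valuation_eq_exp_ord hw hπ hπ0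
  rw [hπ] at h1
  have h2 := WithZero.exp_injective h1
  omega

theorem ord_one' (hF : IsFunctionField k F) (P : Place k F) : ord P.ring 1 = 0 := by
  have h1 := ord_mul' hF P (one_ne_zero (α := F)) (one_ne_zero (α := F))
  rw [mul_one] at h1
  omega

theorem ord_inv' (hF : IsFunctionField k F) (P : Place k F) {a : F} (ha : a ≠ 0) :
    ord P.ring a⁻¹ = - ord P.ring a := by
  have h1 := ord_mul' hF P ha (inv_ne_zero ha)
  rw [mul_inv_cancel₀ ha, ord_one' hF P] at h1
  omega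

theorem ord_pow' (hF : IsFunctionField k F) (P : Place k F) {a : F} (ha : a ≠ 0) (n : ℕ) :
    ord P.ring (a ^ n) = n * ord P.ring a := by
  induction n with
  | zero => rw [pow_zero, ord_one' hF P]; simp
  | succ n ih =>
    rw [pow_succ, ord_mul' hF P (pow_ne_zero n ha) ha, ih]
    push_cast
    ring

theorem ord_zpow' (hF : IsFunctionField k F) (P : Place k F) {a : F} (ha : a ≠ 0) (n : ℤ) :
    ord P.ring (a ^ n) = n * ord P.ring a := by
  obtain ⟨m, rfl | rfl⟩ := Int.eq_nat_or_neg n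
  · rw [zpow_natCast, ord_pow' hF P ha]
  · rw [zpow_neg, ord_inv' hF P (zpow_ne_zero _ ha), zpow_natCast, ord_pow' hF P ha]
    ring

theorem const_zero (P : Place k F) {c : k} (hc : algebraMap k F c ∈ P.ring.nonunits) : c = 0 := by
  rcases (ValuationSubring.mem_nonunits_iff_or _).1 hc with h | h
  · rwa [map_eq_zero] at h
  · exfalso
    apply h
    rw [← map_inv₀]
    exact P.algebraMap_mem _

theorem nonunit_add {R : ValuationSubring F} {a b : F} (ha : a ∈ R.nonunits) (hb : b ∈ R.nonunits) :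
    a + b ∈ R.nonunits := by
  rw [ValuationSubring.mem_nonunits_iff] at *
  exact R.valuation.map_add_lt ha hb

theorem nonunit_sub {R : ValuationSubring F} {a b : F} (ha : a ∈ R.nonunits) (hb : b ∈ R.nonunits) :
    a - b ∈ R.nonunits := by
  rw [ValuationSubring.mem_nonunits_iff] at *
  exact R.valuation.map_sub_lt ha hb

theorem nonunit_mul {R : ValuationSubring F} {a b : F} (ha : a ∈ R.nonunits) (hb : b ∈ R) :
    a * b ∈ R.nonunits := by
  rw [ValuationSubring.mem_nonunits_iff, map_mul] at *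
  exact mul_lt_one_of_lt_of_le ha ((R.valuation_le_one_iff _).2 hb)

end ordlemmas

section theta

variable {k K : Type u} [Field k] [CharZero k] [Field K] [Algebra k K]

/-- The residues of finitely many elements are polynomials in the residue of one element. -/
theorem exists_theta (hF : IsFunctionField k K) (P : Place k K) (T : Finset K)
    (hT : ∀ z ∈ T, z ∈ P.ring) :
    ∃ θ ∈ P.ring, ∃ q : k[X], Irreducible q ∧ aeval θ q ∈ P.ring.nonunits ∧
      ∀ z ∈ T, ∃ h : k[X], z - aeval θ h ∈ P.ring.nonunits := by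
  classical
  let iR : Algebra k P.ring :=
    ((algebraMap k K).codRestrict P.ring.toSubring P.algebraMap_mem).toAlgebra
  have sR : IsScalarTower k P.ring K := IsScalarTower.of_algebraMap_eq fun _ => rfl
  let κ := IsLocalRing.ResidueField P.ring
  let iκ : Algebra k κ := ((IsLocalRing.residue P.ring).comp (algebraMap k P.ring)).toAlgebra
  have sκ : IsScalarTower k P.ring κ := IsScalarTower.of_algebraMap_eq fun _ => rfl
  have hres : ∀ r : P.ring, IsLocalRing.residue P.ring r = 0 ↔ (r : K) ∈ P.ring.nonunits := by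
    intro r
    rw [IsLocalRing.residue_eq_zero_iff, ValuationSubring.mem_nonunits_iff_exists_mem_maximalIdeal]
    exact ⟨fun h => ⟨r.2, h⟩, fun ⟨_, h⟩ => h⟩
  have haev : ∀ (r : P.ring) (q : k[X]), aeval (r : K) q = ((aeval r q : P.ring) : K) := fun r q =>
    aeval_algebraMap_apply K r q
  have haev2 : ∀ (r : P.ring) (q : k[X]), aeval (IsLocalRing.residue P.ring r : κ) q =
      IsLocalRing.residue P.ring (aeval r q) := fun r q => aeval_algebraMap_apply κ r q
  have halg : ∀ z : κ, IsIntegral k z := by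
    intro z
    obtain ⟨r, rfl⟩ := IsLocalRing.residue_surjective z
    obtain ⟨q, hq, hq'⟩ := res_alg hF P r.2
    rw [haev, ← hres, ← haev2] at hq'
    exact (show IsAlgebraic k (IsLocalRing.residue P.ring r : κ) from ⟨q, hq, hq'⟩).isIntegral
  let f : K → κ := fun z => if h : z ∈ P.ring then IsLocalRing.residue P.ring ⟨z, h⟩ else 0
  let S : Finset κ := T.image f
  let L := IntermediateField.adjoin k (S : Set κ)
  have hfin : FiniteDimensional k L := IntermediateField.finiteDimensional_adjoin fun x _ => halg x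
  let pb := Field.powerBasisOfFiniteOfSeparable k L
  obtain ⟨θ, hθ⟩ := IsLocalRing.residue_surjective (pb.gen : κ)
  refine ⟨θ, θ.2, minpoly k pb.gen, minpoly.irreducible pb.isIntegral_gen, ?_, ?_⟩
  · rw [haev, ← hres, ← haev2, hθ]
    have h1 : aeval (algebraMap L κ pb.gen) (minpoly k pb.gen) = 0 := by
      rw [aeval_algebraMap_apply, minpoly.aeval, map_zero]
    exact h1
  · intro z hz
    have hzR := hT z hz
    have h1 : IsLocalRing.residue P.ring ⟨z, hzR⟩ ∈ L := by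
      apply IntermediateField.subset_adjoin
      rw [Finset.mem_coe, Finset.mem_image]
      refine ⟨z, hz, ?_⟩
      simp only [f, dif_pos hzR]
    obtain ⟨h, hh⟩ := pb.exists_eq_aeval' ⟨_, h1⟩
    refine ⟨h, ?_⟩
    have h2 : z - aeval (θ : K) h = ((⟨z, hzR⟩ - aeval θ h : P.ring) : K) := by
      rw [haev]
      rfl
    rw [h2, ← hres, map_sub, ← haev2, hθ, sub_eq_zero]
    have h3 := congrArg (algebraMap L κ) hh
    rw [← aeval_algebraMap_apply] at h3
    exact h3

end theta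

section const

variable {k₀ K₀ k K₁ : Type u} [Field k₀] [CharZero k₀] [Field K₀] [Algebra k₀ K₀] [Field k] [CharZero k]
  [Field K₁] [Algebra k K₁] [Algebra k₀ k] [Algebra K₀ K₁] [Algebra k₀ K₁] [IsScalarTower k₀ k K₁]
  [IsScalarTower k₀ K₀ K₁]

theorem aeval_alg (z : K₀) (q : k₀[X]) : algebraMap K₀ K₁ (aeval z q) =
    aeval (algebraMap K₀ K₁ z) (q.map (algebraMap k₀ k)) := by
  rw [aeval_def, hom_eval₂, aeval_def, eval₂_map, ← IsScalarTower.algebraMap_eq,
    ← IsScalarTower.algebraMap_eq]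

variable (k K₁) in
/-- the constant extension of the local ring of a place -/
def AA (P₀ : Place k₀ K₀) : Subalgebra k K₁ :=
  Algebra.adjoin k (algebraMap K₀ K₁ '' (P₀.ring : Set K₀))

theorem mem_AA {P₀ : Place k₀ K₀} {z : K₀} (hz : z ∈ P₀.ring) : algebraMap K₀ K₁ z ∈ AA k K₁ P₀ :=
  Algebra.subset_adjoin ⟨z, hz, rfl⟩

theorem aeval_mem_AA {P₀ : Place k₀ K₀} {z : K₁} (hz : z ∈ AA k K₁ P₀) (h : k[X]) :
    aeval z h ∈ AA k K₁ P₀ := by
  rw [aeval_eq_sum_range]
  exact sum_mem fun i _ => Subalgebra.smul_mem _ (pow_mem hz i) _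

theorem AA_le {P₀ : Place k₀ K₀} {O : Place k K₁}
    (hO : ∀ z : K₀, algebraMap K₀ K₁ z ∈ O.ring ↔ z ∈ P₀.ring) {a : K₁} (ha : a ∈ AA k K₁ P₀) :
    a ∈ O.ring := by
  induction ha using Algebra.adjoin_induction with
  | mem x hx =>
    obtain ⟨z, hz, rfl⟩ := hx
    exact (hO z).2 hz
  | algebraMap r => exact O.algebraMap_mem r
  | add x y _ _ hx hy => exact O.ring.add_mem _ _ hx hy
  | mul x y _ _ hx hy => exact O.ring.mul_mem _ _ hx hy

theorem exists_finset {P₀ : Place k₀ K₀} {a : K₁} (ha : a ∈ AA k K₁ P₀) :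
    ∃ T : Finset K₀, (∀ z ∈ T, z ∈ P₀.ring) ∧
      a ∈ Algebra.adjoin k (algebraMap K₀ K₁ '' (T : Set K₀)) := by
  classical
  induction ha using Algebra.adjoin_induction with
  | mem x hx =>
    obtain ⟨z, hz, rfl⟩ := hx
    refine ⟨{z}, fun y hy => ?_, Algebra.subset_adjoin ⟨z, by simp, rfl⟩⟩
    rw [Finset.mem_singleton.1 hy]
    exact hz
  | algebraMap r => exact ⟨∅, fun y hy => absurd hy (Finset.notMem_empty y),
      Subalgebra.algebraMap_mem _ r⟩
  | add x y _ _ hx hy =>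
    obtain ⟨T, hT, h1⟩ := hx
    obtain ⟨T', hT', h2⟩ := hy
    refine ⟨T ∪ T', fun z hz => (Finset.mem_union.1 hz).elim (hT z) (hT' z), ?_⟩
    refine add_mem (Algebra.adjoin_mono (Set.image_mono ?_) h1)
      (Algebra.adjoin_mono (Set.image_mono ?_) h2)
    · exact Finset.coe_subset.2 Finset.subset_union_left
    · exact Finset.coe_subset.2 Finset.subset_union_right
  | mul x y _ _ hx hy =>
    obtain ⟨T, hT, h1⟩ := hx
    obtain ⟨T', hT', h2⟩ := hy
    refine ⟨T ∪ T', fun z hz => (Finset.mem_union.1 hz).elim (hT z) (hT' z), ?_⟩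
    refine mul_mem (Algebra.adjoin_mono (Set.image_mono ?_) h1)
      (Algebra.adjoin_mono (Set.image_mono ?_) h2)
    · exact Finset.coe_subset.2 Finset.subset_union_left
    · exact Finset.coe_subset.2 Finset.subset_union_right

/-- reduction modulo the uniformizer -/
theorem decomp {P₀ : Place k₀ K₀} {π : K₀} (hπ0 : π ≠ 0) (hπP : π ∈ P₀.ring)
    (hπ : ∀ z ∈ P₀.ring.nonunits, z / π ∈ P₀.ring) {T : Finset K₀} {θ : K₀} (hθ : θ ∈ P₀.ring)
    (hT : ∀ z ∈ T, ∃ h : k₀[X], z - aeval θ h ∈ P₀.ring.nonunits)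
    {a : K₁} (ha : a ∈ Algebra.adjoin k (algebraMap K₀ K₁ '' (T : Set K₀))) :
    ∃ h : k[X], ∃ a' ∈ AA k K₁ P₀,
      a = aeval (algebraMap K₀ K₁ θ) h + algebraMap K₀ K₁ π * a' := by
  induction ha using Algebra.adjoin_induction with
  | mem x hx =>
    obtain ⟨z, hz, rfl⟩ := hx
    obtain ⟨h, hh⟩ := hT z hz
    refine ⟨h.map (algebraMap k₀ k), algebraMap K₀ K₁ ((z - aeval θ h) / π), mem_AA (hπ _ hh), ?_⟩
    rw [← aeval_alg, ← map_mul, ← map_add]
    congr 1
    field_simp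
    ring
  | algebraMap r => exact ⟨C r, 0, zero_mem _, by rw [aeval_C, mul_zero, add_zero]⟩
  | add x y _ _ hx hy =>
    obtain ⟨h, a', ha', rfl⟩ := hx
    obtain ⟨g, b', hb', rfl⟩ := hy
    refine ⟨h + g, a' + b', add_mem ha' hb', ?_⟩
    rw [map_add]
    ring
  | mul x y _ _ hx hy =>
    obtain ⟨h, a', ha', rfl⟩ := hx
    obtain ⟨g, b', hb', rfl⟩ := hy
    have hθ' : algebraMap K₀ K₁ θ ∈ AA k K₁ P₀ := mem_AA hθ
    refine ⟨h * g, aeval (algebraMap K₀ K₁ θ) h * b' + aeval (algebraMap K₀ K₁ θ) g * a' +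
      algebraMap K₀ K₁ π * (a' * b'), ?_, ?_⟩
    · exact add_mem (add_mem (mul_mem (aeval_mem_AA hθ' h) hb') (mul_mem (aeval_mem_AA hθ' g) ha'))
        (mul_mem (mem_AA hπP) (mul_mem ha' hb'))
    · rw [map_mul]
      ring

/-- one step of the division algorithm -/
theorem step (hF₀ : IsFunctionField k₀ K₀) {P₀ : Place k₀ K₀} {O : Place k K₁} (hr : RatPlace O)
    (hO : ∀ z : K₀, algebraMap K₀ K₁ z ∈ O.ring ↔ z ∈ P₀.ring) {π : K₀} (hπ0 : π ≠ 0)
    (hπP : π ∈ P₀.ring.nonunits) (hπ : ∀ z ∈ P₀.ring.nonunits, z / π ∈ P₀.ring) {a : K₁}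
    (ha : a ∈ AA k K₁ P₀) (hao : a ∈ O.ring.nonunits) :
    ∃ s ∈ AA k K₁ P₀, s ∉ O.ring.nonunits ∧ ∃ a' ∈ AA k K₁ P₀, s * a = algebraMap K₀ K₁ π * a' := by
  have hnon : ∀ z : K₀, algebraMap K₀ K₁ z ∈ O.ring.nonunits ↔ z ∈ P₀.ring.nonunits := by
    intro z
    rw [ValuationSubring.mem_nonunits_iff_or, ValuationSubring.mem_nonunits_iff_or, map_eq_zero,
      ← map_inv₀, hO]
  obtain ⟨T, hT, haT⟩ := exists_finset ha
  obtain ⟨θ, hθ, q, hq, hqθ, hTθ⟩ := exists_theta hF₀ P₀ T hT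
  obtain ⟨h, a', ha', hdec⟩ := decomp hπ0 (ValuationSubring.nonunits_subset hπP) hπ hθ hTθ haT
  set θ' := algebraMap K₀ K₁ θ with hθ'
  have hθO : θ' ∈ O.ring := (hO θ).2 hθ
  have hθA : θ' ∈ AA k K₁ P₀ := mem_AA hθ
  obtain ⟨c, hc⟩ := hr θ' hθO
  -- values of polynomials
  have hval : ∀ p : k[X], aeval θ' p ∈ O.ring.nonunits ↔ p.eval c = 0 := by
    intro p
    have h1 := aeval_sub_mem O.ring O.algebraMap_mem hc p
    constructor
    · intro h2
      refine const_zero O ?_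
      have h3 := nonunit_sub h2 h1
      rwa [sub_sub_cancel] at h3
    · intro h2
      rwa [h2, map_zero, sub_zero] at h1
  set q' := q.map (algebraMap k₀ k) with hq'
  have hqθ' : aeval θ' q' = algebraMap K₀ K₁ (aeval θ q) := (aeval_alg θ q).symm
  have hqc : q'.eval c = 0 := by
    rw [← hval, hqθ', hnon]
    exact hqθ
  obtain ⟨q1, hq1⟩ := dvd_iff_isRoot.2 hqc
  have hsep : q'.Separable := hq.separable.map
  have hq1c : q1.eval c ≠ 0 := by
    intro h1
    have h2 := hsep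
    rw [hq1] at h2
    have h3 : IsCoprime (X - C c) q1 := h2.isCoprime
    obtain ⟨u, v, huv⟩ := h3
    have h4 := congrArg (eval c) huv
    rw [eval_add, eval_mul, eval_mul, eval_sub, eval_X, eval_C, sub_self, mul_zero, h1, mul_zero,
      add_zero, eval_one] at h4
    exact zero_ne_one h4
  have hhc : h.eval c = 0 := by
    rw [← hval]
    have h1 : aeval θ' h = a - algebraMap K₀ K₁ π * a' := by rw [hdec]; ring
    rw [h1]
    exact nonunit_sub hao (nonunit_mul ((hnon π).2 hπP) (AA_le hO ha'))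
  obtain ⟨h1, hh1⟩ := dvd_iff_isRoot.2 hhc
  refine ⟨aeval θ' q1, aeval_mem_AA hθA _, ?_, algebraMap K₀ K₁ (aeval θ q / π) * aeval θ' h1 +
    aeval θ' q1 * a', ?_, ?_⟩
  · rw [hval]
    exact hq1c
  · exact add_mem (mul_mem (mem_AA (hπ _ hqθ)) (aeval_mem_AA hθA _))
      (mul_mem (aeval_mem_AA hθA _) ha')
  · have h2 : algebraMap K₀ K₁ π * algebraMap K₀ K₁ (aeval θ q / π) = aeval θ' q' := by
      rw [← map_mul, mul_div_cancel₀ _ hπ0, hqθ']
    have h3 : aeval θ' q' = (θ' - algebraMap k K₁ c) * aeval θ' q1 := by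
      rw [hq1, map_mul, map_sub, aeval_X, aeval_C]
    have h4 : aeval θ' h = (θ' - algebraMap k K₁ c) * aeval θ' h1 := by
      rw [hh1, map_mul, map_sub, aeval_X, aeval_C]
    rw [hdec, h4, mul_add (algebraMap K₀ K₁ π), ← mul_assoc (algebraMap K₀ K₁ π), h2, h3]
    ring

/-- Every element of `K₁ = k K₀` is a quotient of elements of the constant extension. -/
theorem exists_quot (hgen : IntermediateField.adjoin k (Set.range (algebraMap K₀ K₁)) = ⊤)
    (P₀ : Place k₀ K₀) (z : K₁) : ∃ a ∈ AA k K₁ P₀, ∃ b ∈ AA k K₁ P₀, b ≠ 0 ∧ z = a / b := by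
  have hz : z ∈ IntermediateField.adjoin k (Set.range (algebraMap K₀ K₁)) := by
    rw [hgen]
    trivial
  induction hz using IntermediateField.adjoin_induction with
  | mem x hx =>
    obtain ⟨y, rfl⟩ := hx
    rcases P₀.ring.mem_or_inv_mem y with h | h
    · exact ⟨_, mem_AA h, 1, one_mem _, one_ne_zero, by rw [div_one]⟩
    · by_cases hy : y = 0
      · exact ⟨0, zero_mem _, 1, one_mem _, one_ne_zero, by rw [hy, map_zero, zero_div]⟩
      · refine ⟨1, one_mem _, _, mem_AA h, (_root_.map_ne_zero _).2 (inv_ne_zero hy), ?_⟩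
        rw [map_inv₀, one_div, inv_inv]
  | algebraMap r => exact ⟨_, Subalgebra.algebraMap_mem _ r, 1, one_mem _, one_ne_zero, by
      rw [div_one]⟩
  | add x y _ _ hx hy =>
    obtain ⟨a, ha, b, hb, hb0, rfl⟩ := hx
    obtain ⟨a', ha', b', hb', hb0', rfl⟩ := hy
    exact ⟨a * b' + b * a', add_mem (mul_mem ha hb') (mul_mem hb ha'), b * b', mul_mem hb hb',
      mul_ne_zero hb0 hb0', div_add_div _ _ hb0 hb0'⟩
  | inv x _ hx =>
    obtain ⟨a, ha, b, hb, hb0, rfl⟩ := hx
    by_cases ha0 : a = 0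
    · exact ⟨0, zero_mem _, 1, one_mem _, one_ne_zero, by rw [ha0, zero_div, inv_zero, zero_div]⟩
    · exact ⟨b, hb, a, ha, ha0, by rw [inv_div]⟩
  | mul x y _ _ hx hy =>
    obtain ⟨a, ha, b, hb, hb0, rfl⟩ := hx
    obtain ⟨a', ha', b', hb', hb0', rfl⟩ := hy
    exact ⟨a * a', mul_mem ha ha', b * b', mul_mem hb hb', mul_ne_zero hb0 hb0',
      div_mul_div_comm _ _ _ _⟩

/-- **The place `O` is unramified over the place of `K₀`.** -/
theorem ord_unif (hF₀ : IsFunctionField k₀ K₀) (hF : IsFunctionField k K₁)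
    (hgen : IntermediateField.adjoin k (Set.range (algebraMap K₀ K₁)) = ⊤)
    {P₀ : Place k₀ K₀} {O : Place k K₁} (hr : RatPlace O)
    (hO : ∀ z : K₀, algebraMap K₀ K₁ z ∈ O.ring ↔ z ∈ P₀.ring) {π : K₀} (hπ0 : π ≠ 0)
    (hπ1 : ord P₀.ring π = 1) : ord O.ring (algebraMap K₀ K₁ π) = 1 := by
  have hπP : π ∈ P₀.ring.nonunits := (nonunit_iff_ord hF₀ P₀ hπ0).2 (by omega)
  have hπd : ∀ z ∈ P₀.ring.nonunits, z / π ∈ P₀.ring := by
    intro z hz
    by_cases hz0 : z = 0
    · rw [hz0, zero_div]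
      exact P₀.ring.zero_mem
    · rw [mem_iff_ord hF₀ P₀ (div_ne_zero hz0 hπ0), div_eq_mul_inv,
        ord_mul' hF₀ P₀ hz0 (inv_ne_zero hπ0), ord_inv' hF₀ P₀ hπ0]
      have h1 := (nonunit_iff_ord hF₀ P₀ hz0).1 hz
      omega
  have hπ' : algebraMap K₀ K₁ π ≠ 0 := (_root_.map_ne_zero _).2 hπ0
  have hπO : algebraMap K₀ K₁ π ∈ O.ring.nonunits := by
    rw [ValuationSubring.mem_nonunits_iff_or, ← map_inv₀, hO]
    exact Or.inr (((ValuationSubring.mem_nonunits_iff_or _).1 hπP).resolve_left hπ0)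
  have hpos : 0 < ord O.ring (algebraMap K₀ K₁ π) := (nonunit_iff_ord hF O hπ').1 hπO
  -- divisibility
  have hdvd : ∀ n : ℕ, ∀ a ∈ AA k K₁ P₀, a ≠ 0 → ord O.ring a ≤ n →
      ord O.ring (algebraMap K₀ K₁ π) ∣ ord O.ring a := by
    intro n
    induction n with
    | zero =>
      intro a ha ha0 hn
      have h1 := (mem_iff_ord hF O ha0).1 (AA_le hO ha)
      have h2 : ord O.ring a = 0 := by push_cast at hn; omega
      rw [h2]
      exact dvd_zero _
    | succ n ih =>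
      intro a ha ha0 hn
      by_cases hao : a ∈ O.ring.nonunits
      · obtain ⟨s, hs, hsO, a', ha', h1⟩ := step hF₀ hr hO hπ0 hπP hπd ha hao
        have hs0 : s ≠ 0 := by
          rintro rfl
          exact hsO ((ValuationSubring.mem_nonunits_iff_or _).2 (Or.inl rfl))
        have ha'0 : a' ≠ 0 := by
          rintro rfl
          rw [mul_zero] at h1
          exact (mul_ne_zero hs0 ha0) h1
        have hs1 : ord O.ring s = 0 := by
          have h2 := (mem_iff_ord hF O hs0).1 (AA_le hO hs)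
          have h3 := mt (nonunit_iff_ord hF O hs0).2 hsO
          omega
        have h2 := congrArg (ord O.ring) h1
        rw [ord_mul' hF O hs0 ha0, ord_mul' hF O hπ' ha'0, hs1, zero_add] at h2
        have h3 := ih a' ha' ha'0 (by push_cast at hn; omega)
        rw [h2]
        exact dvd_add (dvd_refl _) h3
      · have h2 := (mem_iff_ord hF O ha0).1 (AA_le hO ha)
        have h3 := mt (nonunit_iff_ord hF O ha0).2 hao
        have h4 : ord O.ring a = 0 := by omega
        rw [h4]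
        exact dvd_zero _
  obtain ⟨t, ht0, ht1⟩ := exists_unif hF O
  obtain ⟨a, ha, b, hb, hb0, rfl⟩ := exists_quot hgen P₀ t
  have ha0 : a ≠ 0 := by
    rintro rfl
    exact ht0 (zero_div _)
  rw [div_eq_mul_inv, ord_mul' hF O ha0 (inv_ne_zero hb0), ord_inv' hF O hb0] at ht1
  have h1 := hdvd (ord O.ring a).toNat a ha ha0 (Int.self_le_toNat _)
  have h2 := hdvd (ord O.ring b).toNat b hb hb0 (Int.self_le_toNat _)
  have h3 : ord O.ring (algebraMap K₀ K₁ π) ∣ 1 := by
    rw [← ht1, ← sub_eq_add_neg]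
    exact dvd_sub h1 h2
  exact Int.eq_one_of_dvd_one hpos.le h3

end const

/-- **The residues of a function at the rational places of the constant extensions.** -/
theorem exists_resid {k₀ K₀ : Type u} [Field k₀] [CharZero k₀] [Field K₀] [Algebra k₀ K₀]
    (hF₀ : IsFunctionField k₀ K₀) (P₀ : Place k₀ K₀) {g : K₀} (hg : g ≠ 0) :
    ∃ p : k₀[X], p.Monic ∧ p.coeff 0 ≠ 0 ∧
      ∀ (k K₁ : Type u) [Field k] [Field K₁] [Algebra k K₁] [Algebra k₀ k] [Algebra K₀ K₁]
        [Algebra k₀ K₁] [IsScalarTower k₀ k K₁] [IsScalarTower k₀ K₀ K₁],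
        IsFunctionField k K₁ →
        IntermediateField.adjoin k (Set.range (algebraMap K₀ K₁)) = ⊤ →
        ∀ O : Place k K₁, RatPlace O → (∀ z : K₀, algebraMap K₀ K₁ z ∈ O.ring ↔ z ∈ P₀.ring) →
        ∃ γ : k, γ ≠ 0 ∧ aeval γ p = 0 ∧ ∀ n : ℕ, (n : ℤ) ∣ ord O.ring (algebraMap K₀ K₁ g) →
          ∃ u : K₁, u ≠ 0 ∧ algebraMap K₀ K₁ g * u ^ n - algebraMap k K₁ γ ∈ O.ring.nonunits := by
  classical
  obtain ⟨π, hπ0, hπ1⟩ := exists_unif hF₀ P₀
  set m := ord P₀.ring g with hm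
  set ε : K₀ := g * π ^ (-m) with hε
  have hε0 : ε ≠ 0 := mul_ne_zero hg (zpow_ne_zero _ hπ0)
  have hεord : ord P₀.ring ε = 0 := by
    rw [hε, ord_mul' hF₀ P₀ hg (zpow_ne_zero _ hπ0), ord_zpow' hF₀ P₀ hπ0, hπ1]
    omega
  have hεP : ε ∈ P₀.ring := (mem_iff_ord hF₀ P₀ hε0).2 hεord.ge
  have hεn : ε ∉ P₀.ring.nonunits := fun h => by
    have h1 := (nonunit_iff_ord hF₀ P₀ hε0).1 h
    omega
  -- a polynomial which vanishes at the residue of `ε`
  obtain ⟨p₁, hp₁, hp₁ε⟩ := res_alg hF₀ P₀ hεP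
  obtain ⟨p₂, hp₂⟩ : X ^ p₁.natTrailingDegree ∣ p₁ :=
    X_pow_dvd_iff.2 fun i hi => coeff_eq_zero_of_lt_natTrailingDegree hi
  have hp₂0 : p₂.coeff 0 ≠ 0 := by
    have h1 : p₁.coeff p₁.natTrailingDegree ≠ 0 := trailingCoeff_nonzero_iff_nonzero.2 hp₁
    have h2 : p₁.coeff p₁.natTrailingDegree = p₂.coeff 0 := by
      have h3 := coeff_X_pow_mul p₂ p₁.natTrailingDegree 0
      rwa [zero_add, ← hp₂] at h3
    rwa [h2] at h1
  have hp₂ne : p₂ ≠ 0 := by
    rintro rfl
    exact hp₂0 (coeff_zero 0)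
  have hp₂ε : aeval ε p₂ ∈ P₀.ring.nonunits := by
    rw [hp₂, map_mul, map_pow, aeval_X] at hp₁ε
    have hv : P₀.ring.valuation ε = 1 := by
      refine le_antisymm ((P₀.ring.valuation_le_one_iff _).2 hεP) ?_
      rw [ValuationSubring.mem_nonunits_iff, not_lt] at hεn
      exact hεn
    rw [ValuationSubring.mem_nonunits_iff, map_mul, map_pow, hv, one_pow, one_mul] at hp₁ε
    exact (ValuationSubring.mem_nonunits_iff _).2 hp₁ε
  have hlc : p₂.leadingCoeff⁻¹ ≠ 0 := inv_ne_zero (leadingCoeff_ne_zero.2 hp₂ne)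
  refine ⟨p₂ * C p₂.leadingCoeff⁻¹, monic_mul_leadingCoeff_inv hp₂ne, ?_, ?_⟩
  · rw [coeff_mul_C]
    exact mul_ne_zero hp₂0 hlc
  intro k K₁ _ _ _ _ _ _ _ _ hF hgen O hr hO
  have hk : CharZero k := charZero_of_injective_algebraMap (algebraMap k₀ k).injective
  have hπ' := ord_unif hF₀ hF hgen hr hO hπ0 hπ1
  set p := p₂ * C p₂.leadingCoeff⁻¹ with hp
  have hp0 : p.coeff 0 ≠ 0 := by
    rw [hp, coeff_mul_C]
    exact mul_ne_zero hp₂0 hlc
  have hpε : aeval ε p ∈ P₀.ring.nonunits := by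
    rw [hp, map_mul, aeval_C]
    exact nonunit_mul hp₂ε (P₀.algebraMap_mem _)
  have hnon : ∀ z : K₀, algebraMap K₀ K₁ z ∈ O.ring.nonunits ↔ z ∈ P₀.ring.nonunits := by
    intro z
    rw [ValuationSubring.mem_nonunits_iff_or, ValuationSubring.mem_nonunits_iff_or, map_eq_zero,
      ← map_inv₀, hO]
  obtain ⟨γ, hγ⟩ := hr (algebraMap K₀ K₁ ε) ((hO ε).2 hεP)
  have hpγ : aeval γ p = 0 := by
    have h1 := aeval_sub_mem O.ring O.algebraMap_mem hγ (p.map (algebraMap k₀ k))
    rw [← aeval_alg] at h1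
    have h2 := nonunit_sub ((hnon _).2 hpε) h1
    rw [sub_sub_cancel] at h2
    have h3 := const_zero O h2
    rwa [eval_map, ← aeval_def] at h3
  refine ⟨γ, ?_, hpγ, ?_⟩
  · rintro rfl
    rw [← coeff_zero_eq_aeval_zero'] at hpγ
    exact hp0 ((map_eq_zero _).1 hpγ)
  · rintro n ⟨r, hrn⟩
    have hε' : algebraMap K₀ K₁ ε ≠ 0 := (_root_.map_ne_zero _).2 hε0
    have hπ0' : algebraMap K₀ K₁ π ≠ 0 := (_root_.map_ne_zero _).2 hπ0
    have hεO : ord O.ring (algebraMap K₀ K₁ ε) = 0 := by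
      have h1 := (mem_iff_ord hF O hε').1 ((hO ε).2 hεP)
      have h2 := mt (nonunit_iff_ord hF O hε').2 (mt (hnon ε).1 hεn)
      omega
    have hgO : ord O.ring (algebraMap K₀ K₁ g) = m := by
      have h1 : algebraMap K₀ K₁ g = algebraMap K₀ K₁ ε * algebraMap K₀ K₁ π ^ m := by
        rw [← map_zpow₀, ← map_mul, hε, mul_assoc, ← zpow_add₀ hπ0, neg_add_cancel, zpow_zero,
          mul_one]
      rw [h1, ord_mul' hF O hε' (zpow_ne_zero _ hπ0'), ord_zpow' hF O hπ0', hεO, hπ']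
      ring
    refine ⟨algebraMap K₀ K₁ π ^ (-r), zpow_ne_zero _ hπ0', ?_⟩
    have h1 : algebraMap K₀ K₁ g * (algebraMap K₀ K₁ π ^ (-r)) ^ n = algebraMap K₀ K₁ ε := by
      rw [← zpow_natCast, ← zpow_mul, hε, map_mul, map_zpow₀]
      congr 2
      rw [← hgO, hrn]
      ring
    rw [h1]
    exact hγ

end Pool.Agent.TWU
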